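import Pool.Agent.Q278.KT.Fin

/-!
# A thin set of integers near all the poor intervals
-/

set_option autoImplicit false

open Finset

namespace Pool.Agent.J6H45.PI

open Pool.Agent.Q240.KS (pic MAINP)

/-- the number of primes in `(a, b]` -/
noncomputable def np (a b : ℝ) : ℕ := ((Ioc ⌊a⌋₊ ⌊b⌋₊).filter Nat.Prime).card

/-- the intervals of length `y ^ θ` on both sides of `y` contain at least `c y ^ θ / log y` primes -/
def Rich (c θ y : ℝ) : Prop :=
  c * y ^ θ / Real.log y ≤ np (y - y ^ θ) y ∧ c * y ^ θ / Real.log y ≤ np y (y + y ^ θ)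

lemma np_mono {a a' b b' : ℝ} (h1 : a' ≤ a) (h2 : b ≤ b') : np a b ≤ np a' b' :=
  card_le_card (filter_subset_filter _ (Ioc_subset_Ioc (Nat.floor_le_floor h1) (Nat.floor_le_floor h2)))

/-- a maximal separated subset -/
lemma greedy {S : Set ℝ} {h : ℝ} (hh : 0 < h) {M : ℕ}
    (hM : ∀ U : Finset ℝ, (∀ y ∈ U, y ∈ S) → (∀ y ∈ U, ∀ y' ∈ U, y ≠ y' → h ≤ |y - y'|) → U.card ≤ M) :
    ∃ U : Finset ℝ, (∀ y ∈ U, y ∈ S) ∧ U.card ≤ M ∧ ∀ s ∈ S, ∃ u ∈ U, |s - u| < h := by
  classical
  let P : ℕ → Prop := fun n => ∃ U : Finset ℝ, (∀ y ∈ U, y ∈ S) ∧ (∀ y ∈ U, ∀ y' ∈ U, y ≠ y' → h ≤ |y - y'|) ∧ U.card = n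
  have h0 : P 0 := ⟨∅, by simp, by simp, by simp⟩
  obtain ⟨U, h1, h2, h3⟩ : P (Nat.findGreatest P M) := Nat.findGreatest_spec (m := 0) (Nat.zero_le _) h0
  refine ⟨U, h1, hM U h1 h2, fun s hs => ?_⟩
  by_contra hcon
  push Not at hcon
  have hsU : s ∉ U := fun hsU => by
    have := hcon s hsU
    rw [sub_self, abs_zero] at this
    linarith
  have hP : P (U.card + 1) := by
    refine ⟨insert s U, ?_, ?_, card_insert_of_notMem hsU⟩
    · intro y hy
      rcases mem_insert.1 hy with h4 | h4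
      · rw [h4]
        exact hs
      · exact h1 y h4
    · intro y hy y' hy' hne
      rcases mem_insert.1 hy with h4 | h4 <;> rcases mem_insert.1 hy' with h5 | h5
      · exact absurd (h4.trans h5.symm) hne
      · rw [h4]
        exact hcon y' h5
      · rw [h5, abs_sub_comm]
        exact hcon y h4
      · exact h2 y h4 y' h5 hne
  have hle : U.card + 1 ≤ M := by
    obtain ⟨V, g1, g2, g3⟩ := hP
    rw [← g3]
    exact hM V g1 g2
  have := Nat.le_findGreatest hle hP
  omega

/-- **The centres of the poor intervals.** -/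
theorem centres {lam0 e0 : ℝ} (h0 : 1 / 10 ≤ lam0) (h01 : lam0 < 1) (he : 0 < e0) (H : MAINP lam0 e0) :
    ∃ c η₀ : ℝ, 0 < c ∧ 0 < η₀ ∧ ∀ η : ℝ, 0 < η → η ≤ η₀ → ∃ C : ℝ, 0 ≤ C ∧ ∃ T : Set ℕ,
      (∀ X : ℝ, 1 ≤ X → {t | t ∈ T ∧ (t : ℝ) ≤ X}.Finite ∧
        (({t | t ∈ T ∧ (t : ℝ) ≤ X}.ncard : ℕ) : ℝ) ≤ C * X ^ (e0 - η)) ∧
      ∀ y : ℝ, 1 ≤ y → ¬ Rich c (1 - lam0 - η) y → ∃ t ∈ T, |(t : ℝ) - y| ≤ y ^ (1 - lam0 - η) := by
  classical
  obtain ⟨c₀, η₁, Y₀, hc₀, hη₁, H⟩ := H
  refine ⟨c₀ / 81, min (η₁ / 2) (min (e0 / 2) ((1 - lam0) / 2)), by positivity,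
    lt_min (by linarith) (lt_min (by linarith) (by linarith)), fun η hη hη' => ?_⟩
  have hη2 : η ≤ η₁ / 2 := hη'.trans (min_le_left _ _)
  have hη3 : η ≤ e0 / 2 := hη'.trans ((min_le_right _ _).trans (min_le_left _ _))
  have hη4 : η ≤ (1 - lam0) / 2 := hη'.trans ((min_le_right _ _).trans (min_le_right _ _))
  set θ : ℝ := 1 - lam0 - η with hθ
  have hθ0 : 0 < θ := by rw [hθ]; linarith
  have hθ1 : θ < 9 / 10 := by rw [hθ]; linarith
  -- the thin sets at one scale
  have key : ∀ i : ℕ, max (max Y₀ 1) (6 / η₁) ≤ (i : ℝ) / 4 → ∃ U : Finset ℝ,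
      (∀ y ∈ U, 0 < y ∧ |Real.log y - (i : ℝ) / 4| ≤ 2 / 5) ∧
      (U.card : ℝ) ≤ Real.exp ((e0 - η) * ((i : ℝ) / 4)) ∧
      ∀ s : ℝ, 0 < s → |Real.log s - (i : ℝ) / 4| ≤ 2 / 5 →
        (pic s (Real.exp (θ * ((i : ℝ) / 4) - 3)) : ℝ) < c₀ * Real.exp (θ * ((i : ℝ) / 4) - 3) / ((i : ℝ) / 4) →
        ∃ u ∈ U, |s - u| < Real.exp (θ * ((i : ℝ) / 4) - 3) := by
    intro i hi
    set Y : ℝ := (i : ℝ) / 4 with hY
    have hY0 : Y₀ ≤ Y := (le_max_left _ _).trans ((le_max_left _ _).trans hi)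
    have hY1 : 1 ≤ Y := (le_max_right _ _).trans ((le_max_left _ _).trans hi)
    have hY2 : 6 / η₁ ≤ Y := (le_max_right _ _).trans hi
    rw [div_le_iff₀ hη₁] at hY2
    have hb1 : Real.exp ((1 - lam0 - η₁) * Y) ≤ Real.exp (θ * Y - 3) := by
      apply Real.exp_le_exp.2
      rw [hθ]
      nlinarith
    have hb2 : Real.exp (θ * Y - 3) ≤ Real.exp (0.9 * Y) := by
      apply Real.exp_le_exp.2
      nlinarith
    obtain ⟨U, g1, g2, g3⟩ := greedy (S := {y : ℝ | 0 < y ∧ |Real.log y - Y| ≤ 2 / 5 ∧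
        (pic y (Real.exp (θ * Y - 3)) : ℝ) < c₀ * Real.exp (θ * Y - 3) / Y}) (Real.exp_pos (θ * Y - 3))
        (M := ⌊Real.exp ((e0 - η) * Y)⌋₊) (fun U hU hsep => by
      apply Nat.le_floor
      refine (H Y hY0 _ hb1 hb2 U hU hsep).trans (Real.exp_le_exp.2 ?_)
      nlinarith)
    refine ⟨U, fun y hy => ⟨(g1 y hy).1, (g1 y hy).2.1⟩, ?_, fun s hs1 hs2 hs3 => g3 s ⟨hs1, hs2, hs3⟩⟩
    exact (by exact_mod_cast g2 : (U.card : ℝ) ≤ (⌊Real.exp ((e0 - η) * Y)⌋₊ : ℝ)).trans
      (Nat.floor_le (Real.exp_pos _).le)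
  choose! U hU1 hU2 hU3 using key
  obtain ⟨i₀, hi₀⟩ := exists_nat_ge (4 * max (max Y₀ 1) (6 / η₁))
  have hbig : ∀ i : ℕ, i₀ ≤ i → max (max Y₀ 1) (6 / η₁) ≤ (i : ℝ) / 4 := by
    intro i hi
    have : (i₀ : ℝ) ≤ i := by exact_mod_cast hi
    linarith
  obtain ⟨A, hA⟩ := exists_nat_ge (max (Real.exp ((i₀ : ℝ) / 4 + 1)) ((4 : ℝ) ^ (1 / θ)))
  have hA1 : Real.exp ((i₀ : ℝ) / 4 + 1) ≤ A := (le_max_left _ _).trans hA
  have hA2 : (4 : ℝ) ^ (1 / θ) ≤ A := (le_max_right _ _).trans hA
  set r : ℝ := Real.exp ((e0 - η) / 4) with hr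
  have hr1 : 1 < r := by
    rw [hr]
    exact Real.one_lt_exp_iff.2 (by linarith)
  refine ⟨(A + 1 : ℕ) + Real.exp (2 * (e0 - η)) / (r - 1), by
      have : 0 < r - 1 := by linarith
      positivity, {t : ℕ | t ≤ A ∨ ∃ i : ℕ, i₀ ≤ i ∧ ∃ u ∈ U i, t = ⌊u⌋₊}, ?_, ?_⟩
  · intro X hX
    have hX0 : 0 < X := by linarith
    have hlX : 0 ≤ Real.log X := Real.log_nonneg hX
    set n : ℕ := ⌊4 * Real.log X⌋₊ + 8 with hn
    have hsub : {t | t ∈ {t : ℕ | t ≤ A ∨ ∃ i : ℕ, i₀ ≤ i ∧ ∃ u ∈ U i, t = ⌊u⌋₊} ∧ (t : ℝ) ≤ X} ⊆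
        ((range (A + 1) ∪ ((range n).filter fun i => i₀ ≤ i).biUnion fun i => (U i).image fun u => ⌊u⌋₊ : Finset ℕ) :
          Set ℕ) := by
      rintro t ⟨h1 | ⟨i, hi, u, hu, rfl⟩, h2⟩
      · rw [mem_coe, mem_union, mem_range]
        left
        omega
      · rw [mem_coe, mem_union, mem_biUnion]
        right
        refine ⟨i, mem_filter.2 ⟨mem_range.2 ?_, hi⟩, mem_image.2 ⟨u, hu, rfl⟩⟩
        obtain ⟨g1, g2⟩ := hU1 i (hbig i hi) u hu
        have g3 : u ≤ 2 * X := by
          have := Nat.lt_floor_add_one u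
          linarith
        have g4 : Real.log u ≤ Real.log 2 + Real.log X := by
          rw [← Real.log_mul (by norm_num) hX0.ne']
          exact Real.log_le_log g1 g3
        have g5 := Real.log_two_lt_d9
        have g6 := (abs_le.1 g2).1
        have g7 : (i : ℝ) < 4 * Real.log X + 7 := by linarith
        have g8 := Nat.lt_floor_add_one (4 * Real.log X)
        have g9 : (i : ℝ) < ((⌊4 * Real.log X⌋₊ + 8 : ℕ) : ℝ) := by
          push_cast
          linarith
        exact_mod_cast g9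
    refine ⟨(finite_toSet _).subset hsub, ?_⟩
    have h1 := Set.ncard_le_ncard hsub (finite_toSet _)
    rw [Set.ncard_coe_finset] at h1
    have h2 : (((range (A + 1) ∪ ((range n).filter fun i => i₀ ≤ i).biUnion fun i => (U i).image fun u => ⌊u⌋₊ :
        Finset ℕ)).card : ℝ) ≤ (A + 1 : ℕ) + ∑ i ∈ range n, r ^ i := by
      have h3 := (card_union_le (range (A + 1)) (((range n).filter fun i => i₀ ≤ i).biUnion
        fun i => (U i).image fun u => ⌊u⌋₊)).trans (Nat.add_le_add_left card_biUnion_le _)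
      rw [card_range] at h3
      refine (by exact_mod_cast h3 : _ ≤ (((A + 1 : ℕ) + ∑ i ∈ (range n).filter (fun i => i₀ ≤ i),
        ((U i).image fun u => ⌊u⌋₊).card : ℕ) : ℝ)).trans ?_
      rw [Nat.cast_add]
      refine add_le_add le_rfl ?_
      rw [Nat.cast_sum]
      refine (sum_le_sum (g := fun i => r ^ i) fun i hi => ?_).trans
        (sum_le_sum_of_subset_of_nonneg (filter_subset _ _) fun i _ _ => by positivity)
      refine (by exact_mod_cast card_image_le : _ ≤ ((U i).card : ℝ)).trans ?_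
      refine (hU2 i (hbig i (mem_filter.1 hi).2)).trans (le_of_eq ?_)
      rw [hr, ← Real.exp_nat_mul]
      congr 1
      ring
    have h3 : ∑ i ∈ range n, r ^ i ≤ Real.exp (2 * (e0 - η)) / (r - 1) * X ^ (e0 - η) := by
      rw [geom_sum_eq hr1.ne']
      have h4 : 0 < r - 1 := by linarith
      rw [div_mul_eq_mul_div, div_le_div_iff_of_pos_right h4]
      have h5 : r ^ n ≤ Real.exp (2 * (e0 - η)) * X ^ (e0 - η) := by
        rw [hr, ← Real.exp_nat_mul, Real.rpow_def_of_pos hX0, ← Real.exp_add]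
        apply Real.exp_le_exp.2
        have h6 : (n : ℝ) ≤ 4 * Real.log X + 8 := by
          rw [hn]
          push_cast
          have := Nat.floor_le (show 0 ≤ 4 * Real.log X by linarith)
          linarith
        have h7 : 0 ≤ (e0 - η) / 4 := by linarith
        nlinarith [mul_le_mul_of_nonneg_right h6 h7]
      linarith
    have h4 : (1 : ℝ) ≤ X ^ (e0 - η) := Real.one_le_rpow hX (by linarith)
    calc _ ≤ ((A + 1 : ℕ) : ℝ) + ∑ i ∈ range n, r ^ i := (by exact_mod_cast h1 : _ ≤ _).trans h2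
      _ ≤ ((A + 1 : ℕ) : ℝ) * X ^ (e0 - η) + Real.exp (2 * (e0 - η)) / (r - 1) * X ^ (e0 - η) := by
          refine add_le_add ?_ h3
          exact le_mul_of_one_le_right (Nat.cast_nonneg _) h4
      _ = _ := by ring
  · intro y hy hpoor
    have hy0 : 0 < y := by linarith
    have hyθ : (1 : ℝ) ≤ y ^ θ := Real.one_le_rpow hy hθ0.le
    by_cases hyA : y ≤ A
    · refine ⟨⌊y⌋₊, Or.inl ?_, ?_⟩
      · exact_mod_cast (Nat.floor_le hy0.le).trans hyA
      · have h1 := Nat.floor_le hy0.le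
        have h2 := Nat.lt_floor_add_one y
        rw [abs_le]
        constructor <;> linarith
    · push Not at hyA
      set i : ℕ := ⌊4 * Real.log y⌋₊ with hi
      set Y : ℝ := (i : ℝ) / 4 with hY
      have hly : 0 ≤ Real.log y := Real.log_nonneg hy
      have hi1 : Y ≤ Real.log y := by
        have := Nat.floor_le (show 0 ≤ 4 * Real.log y by linarith)
        rw [hY, hi]
        linarith
      have hi2 : Real.log y < Y + 1 / 4 := by
        have := Nat.lt_floor_add_one (4 * Real.log y)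
        rw [hY, hi]
        linarith
      have hlog : (i₀ : ℝ) / 4 + 1 ≤ Real.log y := by
        rw [Real.le_log_iff_exp_le hy0]
        linarith
      have hii : i₀ ≤ i := by
        rw [hi]
        apply Nat.le_floor
        linarith
      have hY1 : 1 ≤ Y := (le_max_right _ _).trans ((le_max_left _ _).trans (hbig i hii))
      set h : ℝ := Real.exp (θ * Y - 3) with hh
      have hh0 : 0 < h := Real.exp_pos _
      have hye : y ^ θ = Real.exp (Real.log y * θ) := Real.rpow_def_of_pos hy0 θ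
      have hle1 : 4 * h ≤ y ^ θ := by
        have h1 : (4 : ℝ) ≤ Real.exp 3 := by
          have := Real.add_one_le_exp (3 : ℝ)
          linarith
        calc 4 * h ≤ Real.exp 3 * h := mul_le_mul_of_nonneg_right h1 hh0.le
          _ = Real.exp (θ * Y) := by
              rw [hh, ← Real.exp_add]
              congr 1
              ring
          _ ≤ y ^ θ := by
              rw [hye]
              apply Real.exp_le_exp.2
              nlinarith
      have hle2 : y ^ θ ≤ 81 * h := by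
        have h1 : Real.exp 4 ≤ 81 := by
          have h2 : Real.exp 4 = Real.exp 1 ^ 4 := by
            rw [← Real.exp_nat_mul]
            norm_num
          have h3 := Real.exp_one_lt_d9
          have h4 : Real.exp 1 ≤ 3 := by linarith
          rw [h2]
          calc Real.exp 1 ^ 4 ≤ 3 ^ 4 := pow_le_pow_left₀ (Real.exp_pos 1).le h4 4
            _ = 81 := by norm_num
        calc y ^ θ ≤ Real.exp 4 * h := by
              rw [hye, hh, ← Real.exp_add]
              apply Real.exp_le_exp.2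
              nlinarith
          _ ≤ 81 * h := mul_le_mul_of_nonneg_right h1 hh0.le
      have hyθ4 : (4 : ℝ) ≤ y ^ θ := by
        have h1 : ((4 : ℝ) ^ (1 / θ)) ^ θ = 4 := by
          rw [← Real.rpow_mul (by norm_num), one_div_mul_cancel hθ0.ne', Real.rpow_one]
        rw [← h1]
        exact Real.rpow_le_rpow (by positivity) (hA2.trans hyA.le) hθ0.le
      have hyy : y ^ θ ≤ y := by
        calc y ^ θ ≤ y ^ (1 : ℝ) := Real.rpow_le_rpow_of_exponent_le hy (by linarith)
          _ = y := Real.rpow_one y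
      have hthr : c₀ / 81 * y ^ θ / Real.log y ≤ c₀ * h / Y := by
        have hY0 : 0 < Y := by linarith
        calc c₀ / 81 * y ^ θ / Real.log y ≤ c₀ / 81 * y ^ θ / Y := by
              apply div_le_div_of_nonneg_left _ hY0 hi1
              positivity
          _ ≤ c₀ / 81 * (81 * h) / Y := by
              apply div_le_div_of_nonneg_right _ hY0.le
              exact mul_le_mul_of_nonneg_left hle2 (by positivity)
          _ = c₀ * h / Y := by ring
      unfold Rich at hpoor
      rw [not_and_or, not_le, not_le] at hpoor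
      rcases hpoor with hpoor | hpoor
      · -- the left side
        have hy' : 3 / 4 * y ≤ y - h := by linarith
        have hy'0 : 0 < y - h := by linarith
        have hlog1 : Real.log y - 2 / 5 ≤ Real.log (y - h) := by
          have h1 : Real.exp (-(2 / 5)) ≤ 3 / 4 := by
            have h2 := Real.add_one_le_exp (2 / 5 : ℝ)
            rw [Real.exp_neg]
            rw [inv_le_comm₀ (Real.exp_pos _) (by norm_num)]
            norm_num at h2 ⊢
            linarith
          rw [Real.le_log_iff_exp_le hy'0, sub_eq_add_neg, Real.exp_add, Real.exp_log hy0]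
          nlinarith
        have hlog2 : Real.log (y - h) ≤ Real.log y := Real.log_le_log hy'0 (by linarith)
        obtain ⟨u, hu, hus⟩ := hU3 i (hbig i hii) (y - h) hy'0 (by
            rw [abs_le]
            constructor <;> linarith) (lt_of_le_of_lt (by
            have : pic (y - h) h ≤ np (y - y ^ θ) y := by
              have h1 : pic (y - h) h = np (y - h) y := by
                unfold pic np
                rw [sub_add_cancel]
              rw [h1]
              exact np_mono (by linarith) le_rfl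
            exact_mod_cast this) (lt_of_lt_of_le hpoor hthr))
        refine ⟨⌊u⌋₊, Or.inr ⟨i, hii, u, hu, rfl⟩, ?_⟩
        have hu0 := (hU1 i (hbig i hii) u hu).1
        have h1 := Nat.floor_le hu0.le
        have h2 := Nat.lt_floor_add_one u
        have h3 := abs_lt.1 hus
        rw [abs_le]
        constructor <;> linarith
      · obtain ⟨u, hu, hus⟩ := hU3 i (hbig i hii) y hy0 (by
            rw [abs_le]
            constructor <;> linarith) (lt_of_le_of_lt (by
            have : pic y h ≤ np y (y + y ^ θ) := by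
              have h1 : pic y h = np y (y + h) := rfl
              rw [h1]
              exact np_mono le_rfl (by linarith)
            exact_mod_cast this) (lt_of_lt_of_le hpoor hthr))
        refine ⟨⌊u⌋₊, Or.inr ⟨i, hii, u, hu, rfl⟩, ?_⟩
        have hu0 := (hU1 i (hbig i hii) u hu).1
        have h1 := Nat.floor_le hu0.le
        have h2 := Nat.lt_floor_add_one u
        have h3 := abs_lt.1 hus
        rw [abs_le]
        constructor <;> linarith

end Pool.Agent.J6H45.PI
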