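import Pool.Agent.J6H45.PI.Core
import Pool.Agent.J6H45.WF.Tr

/-!
# Gaps between consecutive primes, and sequences with large steps which avoid the poor intervals
-/

set_option autoImplicit false

open Finset

namespace Pool.Agent.J6H45.PI

open Pool.Agent.Q240.KS (MAINP)
open Pool.Agent.J6H45.WF (Sparse)

/-- `√q - √p < y ^ ρ` for all consecutive primes `p < q` with `p ≤ y ≤ q` -/
def GapAt (ρ y : ℝ) : Prop :=
  ∀ p q : ℕ, p.Prime → q.Prime → p < q → (∀ r : ℕ, p < r → r < q → ¬ r.Prime) → (p : ℝ) ≤ y → y ≤ q →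
    Real.sqrt q - Real.sqrt p < y ^ ρ

/-- The intervals of length `y ^ (θ - η)` on both sides of `y` contain at least `c y ^ (θ - η) / log y` primes, and
`√q - √p < y ^ (θ - 1 / 2 - η / 2)` for the consecutive primes `p < q` with `p ≤ y ≤ q`. -/
def Strong (c θ η y : ℝ) : Prop := Rich c (θ - η) y ∧ GapAt (θ - 1 / 2 - η / 2) y

lemma sqrt_diff {y h p q : ℝ} (hy : 0 < y) (hh : 0 ≤ h) (hp : y - h ≤ p) (hq : q ≤ y + h) :
    Real.sqrt q - Real.sqrt p ≤ 2 * h / Real.sqrt y := by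
  have hs : 0 < Real.sqrt y := Real.sqrt_pos.mpr hy
  rw [le_div_iff₀ hs]
  have h1 : Real.sqrt q ≤ Real.sqrt (y + h) := Real.sqrt_le_sqrt hq
  have h2 : Real.sqrt (y - h) ≤ Real.sqrt p := Real.sqrt_le_sqrt hp
  have h3 : Real.sqrt y ≤ Real.sqrt (y + h) := Real.sqrt_le_sqrt (by linarith)
  have h4 : 0 ≤ Real.sqrt (y - h) := Real.sqrt_nonneg _
  have h5 : Real.sqrt (y - h) ≤ Real.sqrt (y + h) := Real.sqrt_le_sqrt (by linarith)
  have h6 : Real.sqrt (y + h) * Real.sqrt (y + h) = y + h := Real.mul_self_sqrt (by linarith)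
  have h7 : y - h ≤ Real.sqrt (y - h) * Real.sqrt (y - h) := by
    by_cases h8 : 0 ≤ y - h
    · exact (Real.mul_self_sqrt h8).ge
    · have := mul_self_nonneg (Real.sqrt (y - h))
      linarith
  calc (Real.sqrt q - Real.sqrt p) * Real.sqrt y ≤ (Real.sqrt (y + h) - Real.sqrt (y - h)) * Real.sqrt y :=
        mul_le_mul_of_nonneg_right (by linarith) hs.le
    _ ≤ (Real.sqrt (y + h) - Real.sqrt (y - h)) * (Real.sqrt (y + h) + Real.sqrt (y - h)) :=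
        mul_le_mul_of_nonneg_left (by linarith) (by linarith)
    _ = Real.sqrt (y + h) * Real.sqrt (y + h) - Real.sqrt (y - h) * Real.sqrt (y - h) := by ring
    _ ≤ 2 * h := by linarith

lemma gap_of_rich {c θ η : ℝ} (hc : 0 < c) (hη : 0 < η) (hθ : 0 < θ - η) (hθ1 : θ - η < 1) :
    ∃ y₀ : ℝ, 1 ≤ y₀ ∧ ∀ y : ℝ, y₀ ≤ y → Rich c (θ - η) y → GapAt (θ - 1 / 2 - η / 2) y := by
  have h1 : Filter.Tendsto (fun y : ℝ => Real.log y / y ^ (θ - η)) Filter.atTop (nhds 0) :=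
    (isLittleO_log_rpow_atTop hθ).tendsto_div_nhds_zero
  have h2 := h1.eventually (gt_mem_nhds (show (0 : ℝ) < c / 2 by positivity))
  have h3 := (tendsto_rpow_atTop (show 0 < η / 2 by positivity)).eventually (Filter.eventually_gt_atTop 2)
  obtain ⟨y₀, hy₀⟩ := Filter.eventually_atTop.1 (h2.and h3)
  refine ⟨max y₀ 3, le_trans (by norm_num) (le_max_right _ _), fun y hy hr p q hp hq hpq hcons hpy hyq => ?_⟩
  obtain ⟨g1, g2⟩ := hy₀ y ((le_max_left _ _).trans hy)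
  have hy3 : (3 : ℝ) ≤ y := (le_max_right _ _).trans hy
  have hy0 : 0 < y := by linarith
  have hl : 0 < Real.log y := Real.log_pos (by linarith)
  have hh0 : 0 < y ^ (θ - η) := Real.rpow_pos_of_pos hy0 _
  have hhy : y ^ (θ - η) ≤ y := by
    calc y ^ (θ - η) ≤ y ^ (1 : ℝ) := Real.rpow_le_rpow_of_exponent_le (by linarith) hθ1.le
      _ = y := Real.rpow_one y
  have h2' : (2 : ℝ) < c * y ^ (θ - η) / Real.log y := by
    rw [lt_div_iff₀ hl]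
    rw [div_lt_iff₀ hh0] at g1
    linarith
  have hA : 2 < np (y - y ^ (θ - η)) y := by exact_mod_cast h2'.trans_le hr.1
  have hB : 2 < np y (y + y ^ (θ - η)) := by exact_mod_cast h2'.trans_le hr.2
  -- a prime `r₁ ≠ q` on the left
  obtain ⟨r₁, hr₁, hr₁q⟩ : ∃ r₁ ∈ (Ioc ⌊y - y ^ (θ - η)⌋₊ ⌊y⌋₊).filter Nat.Prime, r₁ ≠ q :=
    exists_mem_ne (by unfold np at hA; omega) q
  rw [mem_filter, mem_Ioc] at hr₁
  have h4 : (r₁ : ℝ) ≤ y := (Nat.le_floor_iff hy0.le).1 hr₁.1.2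
  have h5 : y - y ^ (θ - η) < r₁ := (Nat.floor_lt (by linarith)).1 hr₁.1.1
  have h6 : r₁ < q := by
    have : (r₁ : ℝ) ≤ q := h4.trans hyq
    have : r₁ ≤ q := by exact_mod_cast this
    omega
  have h7 : r₁ ≤ p := by
    by_contra hcon
    exact hcons r₁ (by omega) h6 hr₁.2
  have h8 : y - y ^ (θ - η) ≤ p := by
    have : (r₁ : ℝ) ≤ p := by exact_mod_cast h7
    linarith
  -- a prime on the right
  obtain ⟨r₂, hr₂⟩ : ((Ioc ⌊y⌋₊ ⌊y + y ^ (θ - η)⌋₊).filter Nat.Prime).Nonempty :=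
    card_pos.1 (by unfold np at hB; omega)
  rw [mem_filter, mem_Ioc] at hr₂
  have h9 : (r₂ : ℝ) ≤ y + y ^ (θ - η) := (Nat.le_floor_iff (by linarith)).1 hr₂.1.2
  have h10 : y < r₂ := (Nat.floor_lt hy0.le).1 hr₂.1.1
  have h11 : p < r₂ := by
    have : (p : ℝ) < r₂ := by linarith
    exact_mod_cast this
  have h12 : q ≤ r₂ := by
    by_contra hcon
    exact hcons r₂ h11 (by omega) hr₂.2
  have h13 : (q : ℝ) ≤ y + y ^ (θ - η) := by
    have : (q : ℝ) ≤ r₂ := by exact_mod_cast h12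
    linarith
  refine (sqrt_diff hy0 hh0.le h8 h13).trans_lt ?_
  have hs : Real.sqrt y = y ^ (1 / 2 : ℝ) := Real.sqrt_eq_rpow y
  rw [hs, div_lt_iff₀ (Real.rpow_pos_of_pos hy0 _), ← Real.rpow_add hy0,
    show θ - 1 / 2 - η / 2 + 1 / 2 = (θ - η) + η / 2 by ring, Real.rpow_add hy0, mul_comm]
  exact mul_lt_mul_of_pos_left g2 hh0

/-- **A thin set near all the intervals which are not strongly rich.** -/
theorem strong {lam0 e0 : ℝ} (h0 : 1 / 10 ≤ lam0) (h01 : lam0 < 1) (he : 0 < e0) (H : MAINP lam0 e0) :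
    ∃ c η : ℝ, 0 < c ∧ 0 < η ∧ η < e0 ∧ η < 1 - lam0 ∧ ∃ C : ℝ, 0 ≤ C ∧ ∃ T : Set ℕ,
      (∀ X : ℝ, 1 ≤ X → {t | t ∈ T ∧ (t : ℝ) ≤ X}.Finite ∧
        (({t | t ∈ T ∧ (t : ℝ) ≤ X}.ncard : ℕ) : ℝ) ≤ C * X ^ (e0 - η)) ∧
      ∀ y : ℝ, 1 ≤ y → ¬ Strong c (1 - lam0) η y → ∃ t ∈ T, |(t : ℝ) - y| ≤ y ^ (1 - lam0 - η) := by
  classical
  obtain ⟨c, η₀, hc, hη₀, H⟩ := centres h0 h01 he H
  set η : ℝ := min η₀ (min (e0 / 2) ((1 - lam0) / 2)) with hη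
  have hη1 : 0 < η := lt_min hη₀ (lt_min (by linarith) (by linarith))
  have hη2 : η ≤ e0 / 2 := (min_le_right _ _).trans (min_le_left _ _)
  have hη3 : η ≤ (1 - lam0) / 2 := (min_le_right _ _).trans (min_le_right _ _)
  obtain ⟨C, hC0, T, hT1, hT2⟩ := H η hη1 (min_le_left _ _)
  obtain ⟨y₀, hy₀, hgap⟩ := gap_of_rich (c := c) (θ := 1 - lam0) (η := η) hc hη1 (by linarith) (by linarith)
  obtain ⟨A, hA⟩ := exists_nat_ge y₀
  refine ⟨c, η, hc, hη1, by linarith, by linarith, C + (A + 1 : ℕ), by positivity, T ∪ {t | t ≤ A}, ?_, ?_⟩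
  · intro X hX
    have hX1 : (1 : ℝ) ≤ X ^ (e0 - η) := Real.one_le_rpow hX (by linarith)
    obtain ⟨g1, g2⟩ := hT1 X hX
    have hsub : {t | t ∈ T ∪ {t | t ≤ A} ∧ (t : ℝ) ≤ X} ⊆ {t | t ∈ T ∧ (t : ℝ) ≤ X} ∪ ((range (A + 1) : Finset ℕ) : Set ℕ) := by
      rintro t ⟨h1 | h1, h2⟩
      · exact Or.inl ⟨h1, h2⟩
      · right
        rw [mem_coe, mem_range]
        have : t ≤ A := h1
        omega
    have hfin := g1.union (finite_toSet (range (A + 1)))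
    refine ⟨hfin.subset hsub, ?_⟩
    have h1 := (Set.ncard_le_ncard hsub hfin).trans (Set.ncard_union_le _ _)
    rw [Set.ncard_coe_finset, card_range] at h1
    calc (({t | t ∈ T ∪ {t | t ≤ A} ∧ (t : ℝ) ≤ X}.ncard : ℕ) : ℝ)
        ≤ (({t | t ∈ T ∧ (t : ℝ) ≤ X}.ncard : ℕ) : ℝ) + (A + 1 : ℕ) := by exact_mod_cast h1
      _ ≤ C * X ^ (e0 - η) + (A + 1 : ℕ) * X ^ (e0 - η) :=
          add_le_add g2 (le_mul_of_one_le_right (Nat.cast_nonneg _) hX1)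
      _ = _ := by ring
  · intro y hy hbad
    by_cases hyA : y ≤ A
    · refine ⟨⌊y⌋₊, Or.inr ?_, ?_⟩
      · show ⌊y⌋₊ ≤ A
        exact_mod_cast (Nat.floor_le (by linarith : 0 ≤ y)).trans hyA
      · have h1 := Nat.floor_le (show 0 ≤ y by linarith)
        have h2 := Nat.lt_floor_add_one y
        have h3 : (1 : ℝ) ≤ y ^ (1 - lam0 - η) := Real.one_le_rpow hy (by linarith)
        rw [abs_le]
        constructor <;> linarith
    · push Not at hyA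
      by_cases hrich : Rich c (1 - lam0 - η) y
      · exact absurd ⟨hrich, hgap y (hA.trans hyA.le) hrich⟩ hbad
      · obtain ⟨t, ht, h⟩ := hT2 y hy hrich
        exact ⟨t, Or.inl ht, h⟩

/-- `G (v + 1) - G v ≥ a v ^ (d - 1)` and `0 ≤ G v ≤ K v ^ d` for all `v ≥ 1`, with `a > 0` and `d ≥ 1` -/
def Steps (G : ℕ → ℝ) (d : ℝ) : Prop :=
  1 ≤ d ∧ ∃ a K : ℝ, 0 < a ∧ ∀ v : ℕ, 1 ≤ v →
    a * (v : ℝ) ^ (d - 1) ≤ G (v + 1) - G v ∧ 0 ≤ G v ∧ G v ≤ K * (v : ℝ) ^ d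

lemma steps_diff {G : ℕ → ℝ} {d a K : ℝ} (hd : 1 ≤ d) (ha : 0 < a) (h : ∀ v : ℕ, 1 ≤ v →
    a * (v : ℝ) ^ (d - 1) ≤ G (v + 1) - G v ∧ 0 ≤ G v ∧ G v ≤ K * (v : ℝ) ^ d) {v : ℕ} (hv : 1 ≤ v) (k : ℕ) :
    (k : ℝ) * (a * (v : ℝ) ^ (d - 1)) ≤ G (v + k) - G v := by
  induction k with
  | zero => simp
  | succ k ih =>
    have h1 := (h (v + k) (by omega)).1
    have h2 : (v : ℝ) ^ (d - 1) ≤ ((v + k : ℕ) : ℝ) ^ (d - 1) :=
      Real.rpow_le_rpow (Nat.cast_nonneg _) (by exact_mod_cast (by omega : v ≤ v + k)) (by linarith)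
    have h3 := mul_le_mul_of_nonneg_left h2 ha.le
    rw [show v + (k + 1) = v + k + 1 by ring]
    push_cast at h1 h3 ⊢
    linarith

lemma rpow_small {θ : ℝ} (hθ : 0 < θ) (hθ1 : θ < 1) : ∃ D : ℝ, 0 ≤ D ∧ ∀ g : ℝ, 0 ≤ g → 6 * g ^ θ ≤ g / 2 + D := by
  refine ⟨6 * ((12 : ℝ) ^ (1 / (1 - θ))) ^ θ, by positivity, fun g hg => ?_⟩
  by_cases h : g ≤ (12 : ℝ) ^ (1 / (1 - θ))
  · have := Real.rpow_le_rpow hg h hθ.le
    linarith
  · push Not at h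
    have h1 : (0 : ℝ) < (12 : ℝ) ^ (1 / (1 - θ)) := by positivity
    have hg0 : 0 < g := h1.trans h
    have h2 : (12 : ℝ) ≤ g ^ (1 - θ) := by
      have h3 : ((12 : ℝ) ^ (1 / (1 - θ))) ^ (1 - θ) = 12 := by
        rw [← Real.rpow_mul (by norm_num), one_div_mul_cancel (by linarith), Real.rpow_one]
      rw [← h3]
      exact Real.rpow_le_rpow h1.le h.le (by linarith)
    have h3 : g ^ θ * g ^ (1 - θ) = g := by
      rw [← Real.rpow_add hg0, show θ + (1 - θ) = 1 by ring, Real.rpow_one]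
    have h4 : 0 < g ^ θ := Real.rpow_pos_of_pos hg0 _
    have h5 : 0 ≤ 6 * ((12 : ℝ) ^ (1 / (1 - θ))) ^ θ := by positivity
    nlinarith

/-- all `y ≥ 1` at distance at most `G v ^ θ` from `G v` have the property `P` -/
def Around (P : ℝ → Prop) (G : ℕ → ℝ) (θ : ℝ) (v : ℕ) : Prop :=
  ∀ y : ℝ, 1 ≤ y → |y - G v| ≤ G v ^ θ → P y

/-- **Sequences with large steps.** -/
theorem sparse_steps {T : Set ℕ} {C s θ : ℝ} (hC : 0 ≤ C) (hs : 0 ≤ s)
    (hT : ∀ X : ℝ, 1 ≤ X → {t | t ∈ T ∧ (t : ℝ) ≤ X}.Finite ∧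
      (({t | t ∈ T ∧ (t : ℝ) ≤ X}.ncard : ℕ) : ℝ) ≤ C * X ^ s)
    (hθ : 0 < θ) (hθ1 : θ < 1) {P : ℝ → Prop} (hP : ∀ y : ℝ, 1 ≤ y → ¬ P y → ∃ t ∈ T, |(t : ℝ) - y| ≤ y ^ θ)
    {G : ℕ → ℝ} {d : ℝ} (hG : Steps G d) :
    ∃ C' : ℝ, Sparse C' (d * s + max 0 (1 - d * (1 - θ))) (Around P G θ) := by
  classical
  obtain ⟨hd, a, K, ha, hG⟩ := hG
  obtain ⟨D, hD0, hD⟩ := rpow_small hθ hθ1
  have hK0 : 0 ≤ K := by
    have := (hG 1 le_rfl).2
    simp only [Nat.cast_one, Real.one_rpow, mul_one] at this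
    linarith
  set K' : ℝ := K + 1 with hK'
  have hK1 : 1 ≤ K' := by linarith
  have hGK : ∀ v : ℕ, 1 ≤ v → G v ≤ K' * (v : ℝ) ^ d := fun v hv => by
    refine (hG v hv).2.2.trans (mul_le_mul_of_nonneg_right (by linarith) (by positivity))
  set C₆ : ℝ := 2 * (2 * D + 12) * K' with hC₆
  have hC₆0 : 0 ≤ C₆ := by positivity
  set C₇ : ℝ := 6 * C₆ ^ θ + 6 with hC₇
  have hC₇0 : 0 ≤ C₇ := by positivity
  refine ⟨(C₇ / a + 1) * (C * (10 * K') ^ s), fun X hX => ?_⟩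
  have hX1 : (1 : ℝ) ≤ X := by exact_mod_cast hX
  have hX0 : (0 : ℝ) < X := by linarith
  set e : ℝ := max 0 (1 - d * (1 - θ)) with he
  have he0 : 0 ≤ e := le_max_left _ _
  set B : Finset ℕ := (Icc 1 X).filter fun n => ¬ Around P G θ n with hB
  -- the centre near the value
  have hcen : ∀ v ∈ B, ∃ t : ℕ, t ∈ T ∧ |(t : ℝ) - G v| ≤ 3 * G v ^ θ + 3 := by
    intro v hv
    rw [hB, mem_filter, mem_Icc] at hv
    obtain ⟨⟨hv1, -⟩, hv2⟩ := hv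
    unfold Around at hv2
    push Not at hv2
    obtain ⟨y, hy1, hy2, hy3⟩ := hv2
    obtain ⟨t, ht, ht2⟩ := hP y hy1 hy3
    refine ⟨t, ht, ?_⟩
    have hg0 := (hG v hv1).2.1
    set g : ℝ := G v with hg
    have h1 : |(t : ℝ) - g| ≤ y ^ θ + g ^ θ := by
      calc |(t : ℝ) - g| = |((t : ℝ) - y) + (y - g)| := by congr 1; ring
        _ ≤ |(t : ℝ) - y| + |y - g| := abs_add_le _ _
        _ ≤ _ := add_le_add ht2 hy2
    have h2 : y ≤ g + g ^ θ := by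
      have := (abs_le.1 hy2).2
      linarith
    have hy0 : 0 ≤ y := by linarith
    by_cases hg1 : 1 ≤ g
    · have h3 : g ^ θ ≤ g := by
        calc g ^ θ ≤ g ^ (1 : ℝ) := Real.rpow_le_rpow_of_exponent_le hg1 hθ1.le
          _ = g := Real.rpow_one g
      have h4 : y ^ θ ≤ 2 * g ^ θ := by
        calc y ^ θ ≤ (2 * g) ^ θ := Real.rpow_le_rpow hy0 (by linarith) hθ.le
          _ = 2 ^ θ * g ^ θ := Real.mul_rpow (by norm_num) hg0
          _ ≤ 2 ^ (1 : ℝ) * g ^ θ := mul_le_mul_of_nonneg_right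
              (Real.rpow_le_rpow_of_exponent_le (by norm_num) hθ1.le) (by positivity)
          _ = 2 * g ^ θ := by rw [Real.rpow_one]
      linarith
    · push Not at hg1
      have h3 : g ^ θ ≤ 1 := Real.rpow_le_one hg0 hg1.le hθ.le
      have h4 : y ^ θ ≤ 2 := by
        calc y ^ θ ≤ 2 ^ θ := Real.rpow_le_rpow hy0 (by linarith) hθ.le
          _ ≤ 2 ^ (1 : ℝ) := Real.rpow_le_rpow_of_exponent_le (by norm_num) hθ1.le
          _ = 2 := Real.rpow_one 2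
      have h5 : 0 ≤ g ^ θ := by positivity
      linarith
  choose! t ht1 ht2 using hcen
  have hBv : ∀ v ∈ B, 1 ≤ v ∧ v ≤ X := fun v hv => by
    rw [hB, mem_filter, mem_Icc] at hv
    exact hv.1
  set Z : ℝ := 10 * K' * (X : ℝ) ^ d with hZ
  have hXd : (1 : ℝ) ≤ (X : ℝ) ^ d := Real.one_le_rpow hX1 (by linarith)
  have hZ1 : 1 ≤ Z := by
    rw [hZ]
    nlinarith
  have himg : ((B.image t).card : ℝ) ≤ C * Z ^ s := by
    obtain ⟨g1, g2⟩ := hT Z hZ1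
    have hsub : ((B.image t : Finset ℕ) : Set ℕ) ⊆ {t | t ∈ T ∧ (t : ℝ) ≤ Z} := by
      intro x hx
      rw [mem_coe, mem_image] at hx
      obtain ⟨v, hv, rfl⟩ := hx
      refine ⟨ht1 v hv, ?_⟩
      have h1 := (abs_le.1 (ht2 v hv)).2
      have h2 := hD (G v) (hG v (hBv v hv).1).2.1
      have hg0 := (hG v (hBv v hv).1).2.1
      have h3 : G v ^ θ ≤ G v + 1 := by
        by_cases hg1 : 1 ≤ G v
        · have : G v ^ θ ≤ G v := by
            calc G v ^ θ ≤ G v ^ (1 : ℝ) := Real.rpow_le_rpow_of_exponent_le hg1 hθ1.le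
              _ = G v := Real.rpow_one _
          linarith
        · push Not at hg1
          have := Real.rpow_le_one hg0 hg1.le hθ.le
          linarith
      have h4 : G v ≤ K' * (X : ℝ) ^ d := by
        refine (hGK v (hBv v hv).1).trans (mul_le_mul_of_nonneg_left ?_ (by linarith))
        exact Real.rpow_le_rpow (Nat.cast_nonneg _) (by exact_mod_cast (hBv v hv).2) (by linarith)
      have h5 : (1 : ℝ) ≤ K' * (X : ℝ) ^ d := by nlinarith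
      rw [hZ]
      linarith
    have h1 := Set.ncard_le_ncard hsub g1
    rw [Set.ncard_coe_finset] at h1
    exact (by exact_mod_cast h1 : ((B.image t).card : ℝ) ≤ _).trans g2
  have hfib : ∀ x ∈ B.image t, (B.filter fun v => t v = x).card ≤ ⌊(C₇ / a + 1) * (X : ℝ) ^ e⌋₊ := by
    intro x hx
    apply Nat.le_floor
    set F : Finset ℕ := B.filter fun v => t v = x with hF
    have hFne : F.Nonempty := by
      obtain ⟨v, hv, hvx⟩ := mem_image.1 hx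
      exact ⟨v, mem_filter.2 ⟨hv, hvx⟩⟩
    set v₁ := F.min' hFne with hv₁
    set v₂ := F.max' hFne with hv₂
    have h1F : v₁ ∈ F := F.min'_mem hFne
    have h2F : v₂ ∈ F := F.max'_mem hFne
    have hle : v₁ ≤ v₂ := F.min'_le _ h2F
    have hsub : F ⊆ Icc v₁ v₂ := fun v hv => mem_Icc.2 ⟨F.min'_le _ hv, F.le_max' _ hv⟩
    have hcard : (F.card : ℝ) ≤ ((v₂ - v₁ : ℕ) : ℝ) + 1 := by
      have := card_le_card hsub
      rw [Nat.card_Icc] at this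
      exact_mod_cast this.trans (by omega)
    rw [hF, mem_filter] at h1F h2F
    obtain ⟨k, hk⟩ := Nat.exists_eq_add_of_le hle
    have hv1 := (hBv v₁ h1F.1).1
    have hv1X := (hBv v₁ h1F.1).2
    have h1 := steps_diff hd ha hG hv1 k
    rw [← hk] at h1
    have hkk : ((v₂ - v₁ : ℕ) : ℝ) = k := by
      rw [hk]
      congr 1
      omega
    rw [hkk] at hcard
    have hg1 := (hG v₁ hv1).2.1
    have hg2 := (hG v₂ (hBv v₂ h2F.1).1).2.1
    have hv1r : (1 : ℝ) ≤ v₁ := by exact_mod_cast hv1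
    have hv1p : (0 : ℝ) < (v₁ : ℝ) := by linarith
    have hmono : G v₁ ≤ G v₂ := by
      have : (0 : ℝ) ≤ (k : ℝ) * (a * (v₁ : ℝ) ^ (d - 1)) := by positivity
      linarith
    have hc1 := abs_le.1 (ht2 v₁ h1F.1)
    have hc2 := abs_le.1 (ht2 v₂ h2F.1)
    rw [h1F.2] at hc1
    rw [h2F.2] at hc2
    have hgθ : G v₁ ^ θ ≤ G v₂ ^ θ := Real.rpow_le_rpow hg1 hmono hθ.le
    have hdiff : G v₂ - G v₁ ≤ 6 * G v₂ ^ θ + 6 := by linarith [hc1.1, hc1.2, hc2.1, hc2.2]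
    have hD2 := hD (G v₂) hg2
    have hv1d : (1 : ℝ) ≤ (v₁ : ℝ) ^ d := Real.one_le_rpow hv1r (by linarith)
    have hg26 : G v₂ ≤ C₆ * (v₁ : ℝ) ^ d := by
      have h3 : G v₂ ≤ (2 * D + 12) * (G v₁ + 1) := by nlinarith
      have h4 := hGK v₁ hv1
      have h5 : G v₁ + 1 ≤ 2 * (K' * (v₁ : ℝ) ^ d) := by nlinarith
      calc G v₂ ≤ (2 * D + 12) * (G v₁ + 1) := h3
        _ ≤ (2 * D + 12) * (2 * (K' * (v₁ : ℝ) ^ d)) := mul_le_mul_of_nonneg_left h5 (by linarith)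
        _ = C₆ * (v₁ : ℝ) ^ d := by
            rw [hC₆]
            ring
    have hv1dθ : (1 : ℝ) ≤ (v₁ : ℝ) ^ (d * θ) := Real.one_le_rpow hv1r (by positivity)
    have h7 : 6 * G v₂ ^ θ + 6 ≤ C₇ * (v₁ : ℝ) ^ (d * θ) := by
      have h8 : G v₂ ^ θ ≤ C₆ ^ θ * (v₁ : ℝ) ^ (d * θ) := by
        calc G v₂ ^ θ ≤ (C₆ * (v₁ : ℝ) ^ d) ^ θ := Real.rpow_le_rpow hg2 hg26 hθ.le
          _ = C₆ ^ θ * (v₁ : ℝ) ^ (d * θ) := by
              rw [Real.mul_rpow hC₆0 (by positivity), ← Real.rpow_mul (Nat.cast_nonneg _)]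
      rw [hC₇]
      nlinarith
    have h8 : (k : ℝ) * a ≤ C₇ * (v₁ : ℝ) ^ (1 - d * (1 - θ)) := by
      have h9 : (k : ℝ) * (a * (v₁ : ℝ) ^ (d - 1)) ≤ C₇ * (v₁ : ℝ) ^ (d * θ) := by linarith
      have h10 : (v₁ : ℝ) ^ (d * θ) = (v₁ : ℝ) ^ (1 - d * (1 - θ)) * (v₁ : ℝ) ^ (d - 1) := by
        rw [← Real.rpow_add hv1p]
        congr 1
        ring
      rw [h10, ← mul_assoc, ← mul_assoc] at h9
      exact le_of_mul_le_mul_right h9 (Real.rpow_pos_of_pos hv1p _)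
    have h11 : (v₁ : ℝ) ^ (1 - d * (1 - θ)) ≤ (X : ℝ) ^ e := by
      calc (v₁ : ℝ) ^ (1 - d * (1 - θ)) ≤ (v₁ : ℝ) ^ e :=
            Real.rpow_le_rpow_of_exponent_le hv1r (le_max_right _ _)
        _ ≤ (X : ℝ) ^ e := Real.rpow_le_rpow (Nat.cast_nonneg _) (by exact_mod_cast hv1X) he0
    have h12 : (k : ℝ) ≤ C₇ / a * (X : ℝ) ^ e := by
      rw [div_mul_eq_mul_div, le_div_iff₀ ha]
      exact h8.trans (mul_le_mul_of_nonneg_left h11 hC₇0)
    have h13 : (1 : ℝ) ≤ (X : ℝ) ^ e := Real.one_le_rpow hX1 he0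
    calc (F.card : ℝ) ≤ k + 1 := hcard
      _ ≤ C₇ / a * (X : ℝ) ^ e + 1 * (X : ℝ) ^ e := by linarith
      _ = _ := by ring
  have hmain := card_le_mul_card_image B _ hfib
  have h1 : (B.card : ℝ) ≤ ((⌊(C₇ / a + 1) * (X : ℝ) ^ e⌋₊ : ℕ) : ℝ) * ((B.image t).card : ℝ) := by exact_mod_cast hmain
  have h2 : ((⌊(C₇ / a + 1) * (X : ℝ) ^ e⌋₊ : ℕ) : ℝ) ≤ (C₇ / a + 1) * (X : ℝ) ^ e := Nat.floor_le (by positivity)
  calc (B.card : ℝ) ≤ ((C₇ / a + 1) * (X : ℝ) ^ e) * (C * Z ^ s) := by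
        refine h1.trans (mul_le_mul h2 himg (Nat.cast_nonneg _) (by positivity))
    _ = (C₇ / a + 1) * (C * (10 * K') ^ s) * (X : ℝ) ^ (d * s + e) := by
        rw [hZ, Real.mul_rpow (by positivity) (by positivity), ← Real.rpow_mul hX0.le, Real.rpow_add hX0]
        ring

end Pool.Agent.J6H45.PI
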