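import Pool.Agent.Q278.KT.Fin

/-!
# A fourth pair of exponents: at most `X ^ (1 / 2 - η)` poor intervals of length `X ^ (0.42 - η)`
-/

set_option autoImplicit false

namespace Pool.Agent.J6H45.PI

open Finset Pool.Agent.Q240.KS Pool.Agent.Q278.KT

/-- the real-number part of the argument: `a` is the relative length of the factor with the smallest quotient -/
theorem xs_core (a c R : ℝ) (ha : 1 / 100000 ≤ a) (hc : 0 < c) (hN1 : 0.9999 * c ≤ R) (hN2 : 1.9998 * c - 0.08 ≤ R)
    (hR2 : R ≤ 0.58) (ha2 : a ≤ 0.58)
    (hsm : 1 / 5 < a → R ≤ 0.58 - 2 * a + 4 * (c * a)) (hsm2 : 1 / 5 < a → a / 2 - 0.58 / 6 ≤ c * a)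
    (hlv : ∀ m : ℕ, 1 ≤ m → m ≤ 100000 → R ≤ max (2 * (m * a) * c)
      (min (0.58 - (m * a) + 2 * (m * a) * c) (0.58 - 2 * (m * a) + 6 * (m * a) * c)))
    (hmul : ∀ s t : ℝ, 0 < s → s + a ≤ t → t ≤ 1 → ∃ m : ℕ, 1 ≤ m ∧ m ≤ 100000 ∧ s ≤ m * a ∧ m * a ≤ t) : False := by
  norm_num at hN1 hN2 hR2 ha2 hsm hsm2 hlv
  have h3 : a / 2 - 29 / 300 ≤ c * a ∨ a ≤ 1 / 5 := by
    rcases lt_or_ge (1 / 5) a with h | h
    · left
      have := hsm2 (by linarith)
      linarith
    · right
      exact h
  rcases lt_or_ge c 0.086 with hcA | hcA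
  · -- small `c`
    have key : ∀ m : ℕ, 1 ≤ m → m ≤ 100000 → 0.333 ≤ (m : ℝ) * a → (m : ℝ) * a ≤ 0.4999 → False := by
      intro m h1 h2 h4 h5
      have h := hlv m h1 h2
      set b : ℝ := (m : ℝ) * a with hb
      norm_num at h4 h5 hcA
      rcases h with h | h
      · nlinarith
      · have h6 := h.2
        nlinarith
    rcases le_or_gt a 0.1669 with h1 | h1
    · obtain ⟨m, g1, g2, g3, g4⟩ := hmul 0.333 0.4999 (by norm_num) (by norm_num at h1 ⊢; linarith) (by norm_num)
      exact key m g1 g2 g3 g4
    rcases le_or_gt a 0.24995 with h2 | h2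
    · exact key 2 (by norm_num) (by norm_num) (by norm_num at h1 ⊢; linarith) (by norm_num at h2 ⊢; linarith)
    · norm_num at h2 hcA
      rcases h3 with h3 | h3
      · nlinarith
      · linarith
  · rcases le_or_gt c (1 / 4) with hcB | hcB
    · -- `0.086 ≤ c ≤ 1 / 4`
      norm_num at hcA
      have h2c : (0 : ℝ) < 2 - 3 * c := by linarith
      set t : ℝ := 0.58 / (2 - 3 * c) with ht
      have htc : t * (2 - 3 * c) = 0.58 := by
        rw [ht]
        field_simp
      norm_num at htc
      have ht0 : 0 < t := by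
        rw [ht]
        apply div_pos (by norm_num) h2c
      have ht1 : t ≤ 0.465 := by
        norm_num
        nlinarith
      norm_num at ht1
      have key : ∀ m : ℕ, 1 ≤ m → m ≤ 100000 → t ≤ (m : ℝ) * a → (m : ℝ) * a ≤ 3 / 2 * t → False := by
        intro m h1 h2 h4 h5
        have h := hlv m h1 h2
        set b : ℝ := (m : ℝ) * a with hb
        have hR : R ≤ 3 * t * c := by
          rcases h with h | h
          · nlinarith
          · have h6 := h.2
            nlinarith
        have h7 : (9999 / 5000 * c - 2 / 25) * (2 - 3 * c) ≤ 3 * c * (29 / 50) := by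
          calc (9999 / 5000 * c - 2 / 25) * (2 - 3 * c) ≤ (3 * t * c) * (2 - 3 * c) :=
                mul_le_mul_of_nonneg_right (by linarith) h2c.le
            _ = 3 * c * (t * (2 - 3 * c)) := by ring
            _ = 3 * c * (29 / 50) := by rw [htc]
        nlinarith
      rcases le_or_gt a (t / 2) with h1 | h1
      · obtain ⟨m, g1, g2, g3, g4⟩ := hmul t (3 / 2 * t) ht0 (by linarith) (by linarith)
        exact key m g1 g2 g3 g4
      rcases le_or_gt a (3 / 4 * t) with h2 | h2
      · exact key 2 (by norm_num) (by norm_num) (by push_cast; linarith) (by push_cast; linarith)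
      · have h4 : 0.435 < a * (2 - 3 * c) := by
          have : 3 / 4 * t * (2 - 3 * c) < a * (2 - 3 * c) := mul_lt_mul_of_pos_right h2 h2c
          have h5 : 3 / 4 * t * (2 - 3 * c) = 3 / 4 * (29 / 50) := by rw [mul_assoc, htc]
          rw [h5] at this
          norm_num at this ⊢
          linarith
        norm_num at h4
        have h5 : 1 / 5 < a := by nlinarith
        have h6 := hsm (by linarith)
        have h7 := hsm2 (by linarith)
        -- `a > 0.29`
        have h8 : 0.29 < a := by
          norm_num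
          nlinarith
        norm_num at h8
        have h9 : a ≤ 0.387 := by
          norm_num
          nlinarith
        norm_num at h9
        have h10 : (c * a) * (9999 / 5000 - 4 * a) ≤ (33 / 50 - 2 * a) * a := by
          have : c * (9999 / 5000 - 4 * a) ≤ 33 / 50 - 2 * a := by nlinarith
          nlinarith
        have h11 : (a / 2 - 29 / 300) * (9999 / 5000 - 4 * a) ≤ (c * a) * (9999 / 5000 - 4 * a) :=
          mul_le_mul_of_nonneg_right (by linarith) (by linarith)
        nlinarith
    · -- `c > 1 / 4`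
      have hc1 : c ≤ 0.3301 := by
        norm_num
        linarith
      norm_num at hc1
      have h2c : (0 : ℝ) < 1 + c := by linarith
      set t : ℝ := 0.58 / (1 + c) with ht
      have htc : t * (1 + c) = 0.58 := by
        rw [ht]
        field_simp
      norm_num at htc
      have ht0 : 0 < t := by
        rw [ht]
        apply div_pos (by norm_num) h2c
      have ht1 : t ≤ 0.465 := by
        norm_num
        nlinarith
      norm_num at ht1
      have ht2 : 0.436 ≤ t := by
        norm_num
        nlinarith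
      norm_num at ht2
      have key : ∀ m : ℕ, 1 ≤ m → m ≤ 100000 → t ≤ (m : ℝ) * a → (m : ℝ) * a ≤ 3 / 2 * t → False := by
        intro m h1 h2 h4 h5
        have h := hlv m h1 h2
        set b : ℝ := (m : ℝ) * a with hb
        have hR : R ≤ 3 * t * c := by
          rcases h with h | h
          · nlinarith
          · have h6 := h.1
            nlinarith
        have h7 : (9999 / 5000 * c - 2 / 25) * (1 + c) ≤ 3 * c * (29 / 50) := by
          calc (9999 / 5000 * c - 2 / 25) * (1 + c) ≤ (3 * t * c) * (1 + c) :=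
                mul_le_mul_of_nonneg_right (by linarith) h2c.le
            _ = 3 * c * (t * (1 + c)) := by ring
            _ = 3 * c * (29 / 50) := by rw [htc]
        nlinarith
      rcases le_or_gt a (t / 2) with h1 | h1
      · obtain ⟨m, g1, g2, g3, g4⟩ := hmul t (3 / 2 * t) ht0 (by linarith) (by linarith)
        exact key m g1 g2 g3 g4
      rcases le_or_gt a (3 / 4 * t) with h2 | h2
      · exact key 2 (by norm_num) (by norm_num) (by push_cast; linarith) (by push_cast; linarith)
      · have h5 : 0.327 ≤ a := by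
          norm_num
          linarith
        norm_num at h5
        have h6 := hsm (by linarith)
        have h7 : c * (9999 / 5000 - 4 * a) ≤ 33 / 50 - 2 * a := by nlinarith
        rcases le_or_gt (4 * a) (9999 / 5000) with h8 | h8
        · nlinarith
        · nlinarith

theorem t_XS (hMINF : S_MINF) (hLVC : S_LVC) (hMUL : S_MUL) : OPTX 0.58 0.5 := by
  intro al ka lam R hC hpos
  by_contra hno
  have hno' : ∀ x : ℝ, x < 0 → ¬ Alt 0.58 0.5 x al ka R := fun x hx h => hno ⟨x, hx, h⟩
  have hone : ∑ i, al i = 1 := by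
    have h := hC.one
    have h2 := abs_nonneg (∑ i, al i - 1)
    have h3 : |∑ i, al i - 1| = 0 := le_antisymm h h2
    have h4 := abs_eq_zero.1 h3
    linarith
  obtain ⟨i, hi1, hi2⟩ := hMINF al ka hC.nn hone
  have hR1 : ∑ i, ka i ≤ R := by
    by_contra h
    push Not at h
    exact hno' (R - ∑ i, ka i) (by linarith) (Or.inl (by linarith))
  have hR : 2 * ∑ i, ka i - 0.08 ≤ R := by
    by_contra h
    push Not at h
    exact hno' (R - 2 * ∑ i, ka i + 0.08) (by linarith) (Or.inr (Or.inl (by norm_num; linarith)))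
  have hla := hC.la
  have hR0 := hC.R0
  have hcdef : ∑ i, ka i = 0.9999 * ((∑ i, ka i) / 0.9999) := by
    field_simp
  have hki : ka i ≤ (∑ i, ka i) / 0.9999 * al i := by
    rw [div_mul_eq_mul_div, le_div_iff₀ (by norm_num)]
    linarith
  have hcpos : 0 < (∑ i, ka i) / 0.9999 := div_pos hpos (by norm_num)
  have hmobsm : ∀ i : Fin 10, 1 / 5 < al i → al i ≤ lam ∧ R ≤ lam - 2 * al i + 4 * ka i ∧ al i / 2 - lam / 6 ≤ ka i := by
    intro i hi
    rcases lt_or_ge (i : ℕ) 5 with h | h
    · have := hC.mob i h
      linarith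
    · have := hC.smo i h
      exact ⟨by linarith [this.1], by linarith [this.2.2.2], by linarith [this.2.1]⟩
  have hale : al i ≤ 0.58 := by
    by_contra h
    push Not at h
    have := hmobsm i (by norm_num at h ⊢; linarith)
    linarith [this.1]
  refine xs_core (al i) ((∑ i, ka i) / 0.9999) R hi1 hcpos (by linarith) (by
    norm_num at hR hcdef ⊢
    linarith) (by linarith) hale ?_ ?_ ?_ ?_
  · intro h
    have := (hmobsm i h).2.1
    linarith
  · intro h
    have := (hmobsm i h).2.2
    linarith
  · intro m h1 h2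
    exact hLVC 0.58 al ka lam R _ i m hC hi1 hki h1 h2
  · intro s t h1 h2 h3
    exact hMUL (al i) s t hi1 h1 h2 h3

theorem opts_S : OPTS 0.58 0.5 :=
  Pool.Agent.Q208.KT.t_CPT _ _ (by norm_num) (by norm_num) (t_XS t_MINF t_LVC t_MUL)

/-- at most `e^{(1/2 - η)Y}` poor intervals of length `≥ e^{(0.42 - η)Y}` -/
theorem mainp_058 : MAINP 0.58 0.5 :=
  main2_all _ _ (by norm_num) (by norm_num) (far2_all _ _ (by norm_num) (by norm_num) opts_S)

end Pool.Agent.J6H45.PI
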