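import Pool.Agent.J6H45.PI.Use
import Pool.Agent.J6H45.PI.Opt
import Pool.Agent.H684R3.Mom

/-!
# Primes `n ^ 2 + k` for `k` in a short interval and `n` in a dense set: the first moment
-/

set_option autoImplicit false

open Finset

namespace Pool.Agent.J6H45.PI

open Pool.Agent.Q240.KS (MAINP)
open Pool.Agent.H357R2.SI (sg pair_sieve one_le_sg)

/-- an interval all of whose points are rich contains many primes -/
theorem np_of_rich {c θ a b Y ρ : ℝ} (hc : 0 < c) (hθ : 0 < θ) (hθ1 : θ ≤ 1 / 2) (hρ : 1 ≤ ρ) (ha : 1 < a) (hab : a ≤ b)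
    (h1 : Y ≤ ρ ^ 2 * a) (h2 : b ≤ Y) (h3 : 2 * Y ^ θ ≤ b - a)
    (hr : ∀ y : ℝ, a ≤ y → y ≤ b → Rich c θ y) : c / (2 * ρ) * (b - a) / Real.log Y ≤ np a b := by
  have hρ0 : 0 < ρ := by linarith
  have hY1 : 1 < Y := by linarith
  set Hh : ℝ := Y ^ θ with hH
  have hH0 : 0 < Hh := Real.rpow_pos_of_pos (by linarith) _
  have hlY : 0 < Real.log Y := Real.log_pos hY1
  set J : ℕ := ⌊(b - a) / Hh⌋₊ with hJ
  have hJ1 : (J : ℝ) * Hh ≤ b - a := by
    have := Nat.floor_le (show 0 ≤ (b - a) / Hh by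
      apply div_nonneg _ hH0.le
      linarith)
    rwa [le_div_iff₀ hH0] at this
  have hJ2 : (b - a) / 2 ≤ (J : ℝ) * Hh := by
    have h4 := Nat.lt_floor_add_one ((b - a) / Hh)
    rw [div_lt_iff₀ hH0] at h4
    have : (b - a) < ((J : ℝ) + 1) * Hh := h4
    linarith
  have hm : ∀ j < J, c * (Hh / ρ) / Real.log Y ≤ np (a + j * Hh) (a + (j + 1) * Hh) := by
    intro j hj
    set y : ℝ := a + j * Hh with hy
    have hjJ : (j : ℝ) + 1 ≤ J := by exact_mod_cast hj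
    have hj0 : 0 ≤ (j : ℝ) * Hh := by positivity
    have h4 : ((j : ℝ) + 1) * Hh ≤ J * Hh := mul_le_mul_of_nonneg_right hjJ hH0.le
    have hy1 : a ≤ y := by linarith
    have hy2 : y + Hh ≤ b := by linarith
    have hyY : y ≤ Y := by linarith
    have hyp : 1 < y := by linarith
    have h5 := (hr y hy1 (by linarith)).2
    have hyθ : y ^ θ ≤ Hh := Real.rpow_le_rpow (by linarith) hyY hθ.le
    have hyθ2 : Hh / ρ ≤ y ^ θ := by
      have h6 : Hh ≤ (ρ ^ 2 * y) ^ θ := Real.rpow_le_rpow (by linarith) (h1.trans (by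
        exact mul_le_mul_of_nonneg_left hy1 (by positivity))) hθ.le
      have h7 : (ρ ^ 2 * y) ^ θ = (ρ ^ 2) ^ θ * y ^ θ := Real.mul_rpow (by positivity) (by linarith)
      have h8 : (ρ ^ 2) ^ θ ≤ ρ := by
        calc (ρ ^ 2) ^ θ ≤ (ρ ^ 2) ^ (1 / 2 : ℝ) := Real.rpow_le_rpow_of_exponent_le (by nlinarith) hθ1
          _ = ρ := by
              rw [← Real.sqrt_eq_rpow, Real.sqrt_sq hρ0.le]
      have h9 : 0 < y ^ θ := Real.rpow_pos_of_pos (by linarith) _
      rw [div_le_iff₀ hρ0]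
      nlinarith
    have hly : 0 < Real.log y := Real.log_pos hyp
    have hly2 : Real.log y ≤ Real.log Y := Real.log_le_log (by linarith) hyY
    calc c * (Hh / ρ) / Real.log Y ≤ c * (Hh / ρ) / Real.log y :=
          div_le_div_of_nonneg_left (by positivity) hly hly2
      _ ≤ c * y ^ θ / Real.log y := div_le_div_of_nonneg_right (mul_le_mul_of_nonneg_left hyθ2 hc.le) hly.le
      _ ≤ np y (y + y ^ θ) := h5
      _ ≤ np (a + j * Hh) (a + (j + 1) * Hh) := by
          have h7 : a + ((j : ℝ) + 1) * Hh = y + Hh := by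
            rw [hy]
            ring
          exact Nat.cast_le.2 (np_mono le_rfl (by rw [h7]; linarith))
  have h4 := np_steps hH0.le J hm
  have h5 : np a (a + J * Hh) ≤ np a b := np_mono le_rfl (by linarith)
  calc c / (2 * ρ) * (b - a) / Real.log Y = (b - a) / 2 * (c / ρ / Real.log Y) := by
        field_simp
    _ ≤ (J * Hh) * (c / ρ / Real.log Y) := mul_le_mul_of_nonneg_right hJ2 (by positivity)
    _ = J * (c * (Hh / ρ) / Real.log Y) := by
        field_simp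
    _ ≤ np a (a + J * Hh) := h4
    _ ≤ np a b := by exact_mod_cast h5

/-- the indicator of the primes -/
noncomputable def ind (x : ℤ) : ℝ := if x.toNat.Prime then 1 else 0

lemma ind_nonneg (x : ℤ) : 0 ≤ ind x := by
  unfold ind
  split_ifs <;> norm_num

lemma ind_le_one (x : ℤ) : ind x ≤ 1 := by
  unfold ind
  split_ifs <;> norm_num

lemma ind_sum (a K : ℕ) : ∑ j ∈ Ioc 0 K, ind ((a : ℤ) + (j : ℕ)) = np a (a + K) := by
  unfold np
  have e1 : ⌊(a : ℝ)⌋₊ = a := Nat.floor_natCast a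
  have e2 : ⌊(a : ℝ) + K⌋₊ = a + K := by exact_mod_cast Nat.floor_natCast (R := ℝ) (a + K)
  have e3 : Ioc a (a + K) = (Ioc 0 K).image (a + ·) := by
    rw [image_add_left_Ioc, add_zero]
  rw [e1, e2, card_filter, e3, sum_image (fun x _ y _ h => by
    have : a + x = a + y := h
    omega)]
  push_cast
  apply sum_congr rfl
  intro j _
  unfold ind
  rw [show ((a : ℤ) + (j : ℕ)).toNat = a + j by omega]

/-- the number of `n` in `A` such that `n ^ 2 + k` is a prime number -/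
noncomputable def Rk (A : Finset ℕ) (k : ℤ) : ℝ := ∑ n ∈ A, ind ((n : ℤ) ^ 2 + k)

lemma Rk_nonneg (A : Finset ℕ) (k : ℤ) : 0 ≤ Rk A k := sum_nonneg fun _ _ => ind_nonneg _

lemma Rk_eq (A : Finset ℕ) (k : ℤ) : Rk A k = (A.filter fun n : ℕ => ((n : ℤ) ^ 2 + k).toNat.Prime).card := by
  unfold Rk ind
  rw [card_filter]
  push_cast
  rfl

/-- **The first moment.** -/
theorem first {δ : ℝ} (hδ : 0 < δ) (hδ1 : δ ≤ 1) : ∃ c : ℝ, 0 < c ∧ ∃ N₀ : ℕ, ∀ N : ℕ, N₀ ≤ N → ∀ M : ℤ,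
    -(δ * N) ^ 2 / 2 ≤ M → (M : ℝ) + ⌈(N : ℝ) ^ (0.84 : ℝ)⌉₊ ≤ (N : ℝ) ^ 2 →
    ∀ I : Finset ℕ, (∀ n ∈ I, n ≤ N ∧ δ * N ≤ n) → δ * N ≤ I.card →
    c * N * ⌈(N : ℝ) ^ (0.84 : ℝ)⌉₊ / Real.log N ≤
      ∑ j ∈ Ioc 0 ⌈(N : ℝ) ^ (0.84 : ℝ)⌉₊, Rk I (M + (j : ℕ)) := by
  classical
  obtain ⟨c, η₀, hc, hη₀, H⟩ := centres (lam0 := 0.58) (e0 := 0.5) (by norm_num) (by norm_num) (by norm_num) mainp_058
  set η : ℝ := min η₀ 0.01 with hη
  have hη0 : 0 < η := lt_min hη₀ (by norm_num)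
  have hη1 : η ≤ 0.01 := min_le_right _ _
  obtain ⟨C, hC, T, hT1, hT2⟩ := H η hη0 (min_le_left _ _)
  set θ : ℝ := 1 - 0.58 - η with hθ
  have hθ0 : 0 < θ := by
    rw [hθ]
    norm_num at hη1 ⊢
    linarith
  have hθ1 : θ ≤ 0.42 := by
    rw [hθ]
    norm_num
    linarith
  -- large `N`
  have t1 := ((tendsto_rpow_atTop (show (0 : ℝ) < 2 * η by positivity)).comp
    (tendsto_natCast_atTop_atTop (R := ℝ))).eventually (Filter.eventually_ge_atTop (6 * C / δ + 4))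
  have t2 := ((tendsto_rpow_atTop (show (0 : ℝ) < 0.16 by norm_num)).comp
    (tendsto_natCast_atTop_atTop (R := ℝ))).eventually (Filter.eventually_ge_atTop (8 / δ : ℝ))
  obtain ⟨N₀, hN₀⟩ := Filter.eventually_atTop.1 ((t1.and t2).and (Filter.eventually_ge_atTop 100))
  refine ⟨c * δ ^ 2 / 24, by positivity, N₀, fun N hN M hM1 hM2 I hI1 hI2 => ?_⟩
  obtain ⟨⟨g1, g2⟩, g3⟩ := hN₀ N hN
  simp only [Function.comp] at g1 g2
  set K : ℕ := ⌈(N : ℝ) ^ (0.84 : ℝ)⌉₊ with hK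
  have hN100 : (100 : ℝ) ≤ N := by exact_mod_cast g3
  have hNp : (0 : ℝ) < N := by linarith
  have hln : 0 < Real.log N := Real.log_pos (by linarith)
  set w : ℝ := (N : ℝ) ^ (0.84 : ℝ) with hw
  have hw0 : 0 < w := Real.rpow_pos_of_pos hNp _
  have hw1 : 1 ≤ w := Real.one_le_rpow (by linarith) (by norm_num)
  have hKw : w ≤ K := Nat.le_ceil _
  have hKw2 : (K : ℝ) ≤ 2 * w := by
    have := Nat.ceil_lt_add_one hw0.le
    linarith
  have hw8 : 8 * w ≤ δ * N := by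
    have e : w * (N : ℝ) ^ (0.16 : ℝ) = N := by
      rw [hw, ← Real.rpow_add hNp]
      norm_num
    have h1 : 8 ≤ δ * (N : ℝ) ^ (0.16 : ℝ) := by
      rw [div_le_iff₀ hδ] at g2
      linarith
    calc 8 * w ≤ (δ * (N : ℝ) ^ (0.16 : ℝ)) * w := mul_le_mul_of_nonneg_right h1 hw0.le
      _ = δ * (w * (N : ℝ) ^ (0.16 : ℝ)) := by ring
      _ = δ * N := by rw [e]
  have hδN : 8 ≤ δ * N := by linarith
  set Y : ℝ := 2 * (N : ℝ) ^ 2 with hY
  have hY0 : 0 < Y := by positivity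
  -- powers of `Y`
  have hYθ : Y ^ θ ≤ 2 * (N : ℝ) ^ (2 * θ) := by
    rw [hY, Real.mul_rpow (by norm_num) (by positivity)]
    have h3 : ((N : ℝ) ^ 2) ^ θ = (N : ℝ) ^ (2 * θ) := by
      rw [← Real.rpow_natCast (N : ℝ) 2, ← Real.rpow_mul hNp.le]
      norm_num
    rw [h3]
    refine mul_le_mul_of_nonneg_right ?_ (by positivity)
    calc (2 : ℝ) ^ θ ≤ 2 ^ (1 : ℝ) := Real.rpow_le_rpow_of_exponent_le (by norm_num) (by
          norm_num at hθ1 ⊢
          linarith)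
      _ = 2 := Real.rpow_one 2
  have hYθ2 : Y ^ θ ≤ 2 * w := by
    refine hYθ.trans (mul_le_mul_of_nonneg_left ?_ (by norm_num))
    rw [hw]
    apply Real.rpow_le_rpow_of_exponent_le (by linarith)
    norm_num at hθ1 ⊢
    linarith
  have hYθ3 : 2 * Y ^ θ ≤ w := by
    have e : (N : ℝ) ^ (2 * θ) * (N : ℝ) ^ (2 * η) = w := by
      rw [hw, ← Real.rpow_add hNp, hθ]
      norm_num
      ring_nf
    have h3 : (0 : ℝ) < (N : ℝ) ^ (2 * θ) := Real.rpow_pos_of_pos hNp _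
    have h4 : (4 : ℝ) ≤ (N : ℝ) ^ (2 * η) := by
      have : 0 ≤ 6 * C / δ := by positivity
      linarith
    nlinarith
  -- the position of the intervals
  have hpos : ∀ n ∈ I, (δ * N) ^ 2 / 2 ≤ (n : ℝ) ^ 2 + M := by
    intro n hn
    have h1 := (hI1 n hn).2
    have h2 : (δ * N) ^ 2 ≤ (n : ℝ) ^ 2 := pow_le_pow_left₀ (by positivity) h1 2
    linarith
  have hup : ∀ n ∈ I, (n : ℝ) ^ 2 + M + K ≤ 2 * (N : ℝ) ^ 2 := by
    intro n hn
    have h3 : (n : ℝ) ≤ N := by exact_mod_cast (hI1 n hn).1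
    have h4 : (n : ℝ) ^ 2 ≤ (N : ℝ) ^ 2 := pow_le_pow_left₀ (Nat.cast_nonneg n) h3 2
    linarith
  have hδN2 : 32 ≤ (δ * N) ^ 2 / 2 := by nlinarith
  set Good : ℕ → Prop := fun n => ∀ y : ℝ, (n : ℝ) ^ 2 + M ≤ y → y ≤ (n : ℝ) ^ 2 + M + K → Rich c θ y with hGood
  -- the bad ones
  set B : Finset ℕ := I.filter fun n => ¬ Good n with hB
  have hBt : ∀ n ∈ B, ∃ t : ℕ, t ∈ T ∧ |(t : ℝ) - ((n : ℝ) ^ 2 + M)| ≤ δ * N / 2 := by
    intro n hn
    rw [hB, mem_filter] at hn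
    obtain ⟨hnI, hn2⟩ := hn
    simp only [hGood] at hn2
    push Not at hn2
    obtain ⟨y, hy1, hy2, hy3⟩ := hn2
    have h3 := hpos n hnI
    have h4 := hup n hnI
    have hy4 : 1 ≤ y := by linarith
    obtain ⟨t, ht, ht2⟩ := hT2 y hy4 hy3
    refine ⟨t, ht, ?_⟩
    have h5 : y ^ θ ≤ Y ^ θ := Real.rpow_le_rpow (by linarith) (by
      rw [hY]
      linarith) hθ0.le
    have h6 : |(t : ℝ) - ((n : ℝ) ^ 2 + M)| ≤ |(t : ℝ) - y| + |y - ((n : ℝ) ^ 2 + M)| := by
      refine le_trans (le_of_eq ?_) (abs_add_le _ _)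
      congr 1
      ring
    have h7 : |y - ((n : ℝ) ^ 2 + M)| ≤ K := by
      rw [abs_le]
      constructor <;> linarith [Nat.cast_nonneg (α := ℝ) K]
    have h8 : |(t : ℝ) - y| ≤ y ^ θ := ht2
    linarith
  choose! t ht using hBt
  have hinj : Set.InjOn t B := by
    intro n hn n' hn' he
    have key : ∀ n n' : ℕ, n ∈ B → n' ∈ B → t n = t n' → n < n' → False := by
      intro n n' hn hn' he hlt
      have h3 := (ht n hn).2
      have h4 := (ht n' hn').2
      rw [he] at h3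
      have h5 := abs_le.1 h3
      have h6 := abs_le.1 h4
      rw [hB, mem_filter] at hn hn'
      have h7 := (hI1 n hn.1).2
      have h8 : (n : ℝ) + 1 ≤ n' := by exact_mod_cast hlt
      nlinarith
    rcases lt_trichotomy n n' with h | h | h
    · exact (key n n' hn hn' he h).elim
    · exact h
    · exact (key n' n hn' hn he.symm h).elim
  have hBcard : (B.card : ℝ) ≤ δ * N / 2 := by
    have hX : (1 : ℝ) ≤ 3 * (N : ℝ) ^ 2 := by nlinarith
    obtain ⟨f1, f2⟩ := hT1 (3 * (N : ℝ) ^ 2) hX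
    have h3 : B.card ≤ f1.toFinset.card := by
      apply card_le_card_of_injOn t _ hinj
      intro n hn
      have h4 := ht n hn
      have hn2 := hn
      rw [mem_coe, hB, mem_filter] at hn2
      have h5 := hup n hn2.1
      have h6 := (abs_le.1 h4.2).2
      rw [mem_coe, Set.Finite.mem_toFinset]
      refine ⟨h4.1, ?_⟩
      have h7 : (0 : ℝ) ≤ K := Nat.cast_nonneg K
      have h8 : δ * N ≤ 1 * N := mul_le_mul_of_nonneg_right hδ1 hNp.le
      nlinarith
    rw [← Set.ncard_eq_toFinset_card _ f1] at h3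
    have h4 : (B.card : ℝ) ≤ C * (3 * (N : ℝ) ^ 2) ^ (0.5 - η) := le_trans (by exact_mod_cast h3) f2
    have h5 : (3 * (N : ℝ) ^ 2) ^ (0.5 - η) ≤ 3 * (N : ℝ) ^ (1 - 2 * η) := by
      rw [Real.mul_rpow (by norm_num) (by positivity)]
      have h6 : ((N : ℝ) ^ 2) ^ (0.5 - η) = (N : ℝ) ^ (1 - 2 * η) := by
        rw [← Real.rpow_natCast (N : ℝ) 2, ← Real.rpow_mul hNp.le]
        congr 1
        push_cast
        ring
      rw [h6]
      refine mul_le_mul_of_nonneg_right ?_ (by positivity)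
      calc (3 : ℝ) ^ (0.5 - η) ≤ 3 ^ (1 : ℝ) := Real.rpow_le_rpow_of_exponent_le (by norm_num) (by
            norm_num
            linarith)
        _ = 3 := Real.rpow_one 3
    have h6 : (N : ℝ) ^ (1 - 2 * η) * (N : ℝ) ^ (2 * η) = N := by
      rw [← Real.rpow_add hNp]
      norm_num
    have h7 : (0 : ℝ) < (N : ℝ) ^ (1 - 2 * η) := Real.rpow_pos_of_pos hNp _
    have h8 : C * (3 * (N : ℝ) ^ 2) ^ (0.5 - η) ≤ 3 * C * (N : ℝ) ^ (1 - 2 * η) := by
      have := mul_le_mul_of_nonneg_left h5 hC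
      linarith
    have h9 : 6 * C * (N : ℝ) ^ (1 - 2 * η) ≤ δ * N := by
      have h10 : 6 * C / δ ≤ (N : ℝ) ^ (2 * η) := by linarith
      rw [div_le_iff₀ hδ] at h10
      calc 6 * C * (N : ℝ) ^ (1 - 2 * η) ≤ ((N : ℝ) ^ (2 * η) * δ) * (N : ℝ) ^ (1 - 2 * η) :=
            mul_le_mul_of_nonneg_right h10 h7.le
        _ = δ * ((N : ℝ) ^ (1 - 2 * η) * (N : ℝ) ^ (2 * η)) := by ring
        _ = δ * N := by rw [h6]
    linarith
  -- the good ones
  have hgood : ∀ n ∈ I.filter Good, c * δ / 12 * K / Real.log N ≤ ∑ j ∈ Ioc 0 K, ind ((n : ℤ) ^ 2 + (M + (j : ℕ))) := by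
    intro n hn
    rw [mem_filter] at hn
    have h3 := hpos n hn.1
    have h4 := hup n hn.1
    have h5 : 0 ≤ (n : ℤ) ^ 2 + M := by
      have : (0 : ℝ) ≤ (n : ℝ) ^ 2 + M := le_trans (by positivity) h3
      exact_mod_cast this
    obtain ⟨a, ha⟩ := Int.eq_ofNat_of_zero_le h5
    have haR : (a : ℝ) = (n : ℝ) ^ 2 + M := by
      have : ((a : ℤ) : ℝ) = ((n : ℤ) ^ 2 + M : ℤ) := by rw [ha]
      push_cast at this
      exact this
    have h6 : ∑ j ∈ Ioc 0 K, ind ((n : ℤ) ^ 2 + (M + (j : ℕ))) = np a (a + K) := by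
      rw [← ind_sum]
      apply sum_congr rfl
      intro j _
      rw [← add_assoc, ha]
    rw [h6]
    have h7 := np_of_rich (a := a) (b := a + K) (Y := Y) (ρ := 2 / δ) hc hθ0 (by
      norm_num at hθ1 ⊢
      linarith) (by
      rw [le_div_iff₀ hδ]
      linarith) (by
      rw [haR]
      linarith) (by linarith [Nat.cast_nonneg (α := ℝ) K]) (by
      rw [haR, hY]
      have h8 : (2 / δ) ^ 2 * ((δ * N) ^ 2 / 2) = 2 * (N : ℝ) ^ 2 := by
        field_simp
      rw [← h8]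
      exact mul_le_mul_of_nonneg_left h3 (by positivity)) (by
      rw [haR, hY]
      linarith) (by linarith) (fun y hy1 hy2 => hn.2 y (by rw [← haR]; exact hy1) (by rw [← haR]; exact hy2))
    refine le_trans ?_ h7
    have hlog : Real.log Y ≤ 3 * Real.log N := by
      have h8 : 3 * Real.log N = Real.log ((N : ℝ) ^ 3) := by
        rw [Real.log_pow]
        norm_num
      rw [h8, hY]
      apply Real.log_le_log (by positivity)
      nlinarith [pow_pos hNp 2]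
    have hlY : 0 < Real.log Y := Real.log_pos (by
      rw [hY]
      nlinarith)
    rw [show (a : ℝ) + K - a = K by ring]
    have h8 : c / (2 * (2 / δ)) = c * δ / 4 := by
      field_simp
      norm_num
    rw [h8]
    calc c * δ / 12 * K / Real.log N = c * δ / 4 * K / (3 * Real.log N) := by
          rw [div_eq_div_iff (by positivity) (by positivity)]
          ring
      _ ≤ c * δ / 4 * K / Real.log Y := div_le_div_of_nonneg_left (by positivity) hlY hlog
  have hcardG : δ * N / 2 ≤ (I.filter Good).card := by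
    have h3 := card_filter_add_card_filter_not (s := I) Good
    have h4 : ((I.filter Good).card : ℝ) + B.card = I.card := by exact_mod_cast h3
    linarith
  calc c * δ ^ 2 / 24 * N * K / Real.log N = (δ * N / 2) * (c * δ / 12 * K / Real.log N) := by
        rw [← mul_div_assoc]
        congr 1
        ring
    _ ≤ (I.filter Good).card * (c * δ / 12 * K / Real.log N) := mul_le_mul_of_nonneg_right hcardG (by positivity)
    _ = ∑ n ∈ I.filter Good, c * δ / 12 * K / Real.log N := by rw [sum_const, nsmul_eq_mul]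
    _ ≤ ∑ n ∈ I.filter Good, ∑ j ∈ Ioc 0 K, ind ((n : ℤ) ^ 2 + (M + (j : ℕ))) := sum_le_sum hgood
    _ ≤ ∑ n ∈ I, ∑ j ∈ Ioc 0 K, ind ((n : ℤ) ^ 2 + (M + (j : ℕ))) :=
        sum_le_sum_of_subset_of_nonneg (filter_subset _ _) fun _ _ _ => sum_nonneg fun _ _ => ind_nonneg _
    _ = ∑ j ∈ Ioc 0 K, Rk I (M + (j : ℕ)) := by
        rw [sum_comm]
        rfl

end Pool.Agent.J6H45.PI
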