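import Pool.Agent.J6H45.PI.Quad

/-!
# Primes `n ^ 2 + k` for `k` in a short interval: the second moment and the main theorem
-/

set_option autoImplicit false

open Finset

namespace Pool.Agent.J6H45.PI

open Pool.Agent.H357R2.SI (sg pair_sieve one_le_sg)

open scoped Pointwise

lemma sg_nonneg (h : ℕ) : 0 ≤ sg h := by
  unfold Pool.Agent.H357R2.SI.sg
  positivity

/-- `σ_{-1}` is submultiplicative -/
lemma sg_mul_le (a b : ℕ) : sg (a * b) ≤ sg a * sg b := by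
  classical
  unfold Pool.Agent.H357R2.SI.sg
  rw [sum_mul_sum, ← sum_product', Nat.divisors_mul]
  have h1 : ∀ p ∈ a.divisors ×ˢ b.divisors, p.1 * p.2 ∈ a.divisors * b.divisors := by
    intro p hp
    rw [mem_product] at hp
    exact Finset.mul_mem_mul hp.1 hp.2
  rw [← sum_fiberwise_of_maps_to h1]
  apply sum_le_sum
  intro x hx
  obtain ⟨y, hy, z, hz, hyz⟩ := Finset.mem_mul.1 hx
  have h2 : (y, z) ∈ (a.divisors ×ˢ b.divisors).filter fun p => p.1 * p.2 = x := by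
    rw [mem_filter, mem_product]
    exact ⟨⟨hy, hz⟩, hyz⟩
  have h3 := single_le_sum (f := fun p : ℕ × ℕ => 1 / (p.1 : ℝ) * (1 / (p.2 : ℝ))) (fun p _ => by positivity) h2
  refine le_trans (le_of_eq ?_) h3
  rw [← hyz]
  push_cast
  rw [div_mul_div_comm, one_mul]

lemma sum_inj_le {I J : Finset ℕ} {g : ℕ → ℕ} {f : ℕ → ℝ} (hf : ∀ x, 0 ≤ f x) (hg : Set.InjOn g I)
    (hm : ∀ x ∈ I, g x ∈ J) : ∑ x ∈ I, f (g x) ≤ ∑ y ∈ J, f y := by
  rw [← sum_image hg]
  exact sum_le_sum_of_subset_of_nonneg (image_subset_iff.2 hm) fun _ _ _ => hf _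

/-- the number of `j` such that both are prime -/
noncomputable def Pr (K : ℕ) (x y : ℤ) : ℝ := ∑ j ∈ Ioc 0 K, ind (x + (j : ℕ)) * ind (y + (j : ℕ))

lemma Pr_nonneg (K : ℕ) (x y : ℤ) : 0 ≤ Pr K x y := sum_nonneg fun _ _ => mul_nonneg (ind_nonneg _) (ind_nonneg _)

lemma Pr_comm (K : ℕ) (x y : ℤ) : Pr K x y = Pr K y x := by
  unfold Pr
  exact sum_congr rfl fun j _ => mul_comm _ _

lemma Pr_le (K : ℕ) (x y : ℤ) : Pr K x y ≤ K := by
  unfold Pr
  calc ∑ j ∈ Ioc 0 K, ind (x + (j : ℕ)) * ind (y + (j : ℕ)) ≤ ∑ j ∈ Ioc 0 K, (1 : ℝ) := by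
        refine sum_le_sum fun j _ => ?_
        exact mul_le_one₀ (ind_le_one _) (ind_nonneg _) (ind_le_one _)
    _ = K := by
        rw [sum_const, Nat.card_Ioc]
        simp

lemma Pr_nat (K a h : ℕ) : Pr K a ((a : ℤ) + h) = ((Ioc a (a + K)).filter (fun n => n.Prime ∧ (n + h).Prime)).card := by
  unfold Pr
  have e3 : Ioc a (a + K) = (Ioc 0 K).image (a + ·) := by
    rw [image_add_left_Ioc, add_zero]
  rw [card_filter, e3, sum_image (fun x _ y _ h => by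
    have : a + x = a + y := h
    omega)]
  push_cast
  apply sum_congr rfl
  intro j _
  unfold ind
  rw [show ((a : ℤ) + (j : ℕ)).toNat = a + j by omega, show ((a : ℤ) + h + (j : ℕ)).toNat = a + j + h by omega]
  by_cases h1 : (a + j).Prime <;> by_cases h2 : (a + j + h).Prime <;> simp [h1, h2]

/-- the sieve bound for two values -/
lemma pair_bound {C₁ : ℝ} {u₀ : ℕ} (hC : 1 ≤ C₁) (hps : ∀ h a u : ℕ, 0 < h → u₀ ≤ u →
    (((Ioc a (a + u)).filter (fun n => n.Prime ∧ (n + h).Prime)).card : ℝ) ≤ C₁ * sg h ^ 2 * u / Real.log u ^ 2)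
    {K n n' : ℕ} {M : ℤ} (hK : u₀ ≤ K) (hn : 0 ≤ (n : ℤ) ^ 2 + M) (hlt : n < n') :
    Pr K ((n : ℤ) ^ 2 + M) ((n' : ℤ) ^ 2 + M) ≤ (sg (n' - n) ^ 4 + sg (n + n') ^ 4) * (C₁ * K / Real.log K ^ 2) := by
  obtain ⟨a, ha⟩ := Int.eq_ofNat_of_zero_le hn
  set h : ℕ := (n' - n) * (n + n') with hh
  have hh0 : 0 < h := Nat.mul_pos (by omega) (by omega)
  have e1 : (n' : ℤ) ^ 2 + M = (a : ℤ) + h := by
    have : ((h : ℕ) : ℤ) = ((n' : ℤ) - n) * (n + n') := by
      rw [hh]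
      push_cast [Nat.cast_sub hlt.le]
      ring
    rw [← ha, this]
    ring
  rw [e1, ha, Pr_nat]
  have h1 := hps h a K hh0 hK
  have h2 : sg h ≤ sg (n' - n) * sg (n + n') := sg_mul_le _ _
  have h3 : sg h ^ 2 ≤ sg (n' - n) ^ 4 + sg (n + n') ^ 4 := by
    have h4 : sg h ^ 2 ≤ (sg (n' - n) * sg (n + n')) ^ 2 := pow_le_pow_left₀ (sg_nonneg _) h2 2
    nlinarith [sq_nonneg (sg (n' - n) ^ 2 - sg (n + n') ^ 2), sq_nonneg (sg (n' - n) ^ 2), sq_nonneg (sg (n + n') ^ 2)]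
  refine h1.trans ?_
  calc C₁ * sg h ^ 2 * K / Real.log K ^ 2 = sg h ^ 2 * (C₁ * K / Real.log K ^ 2) := by ring
    _ ≤ _ := mul_le_mul_of_nonneg_right h3 (by positivity)

/-- **The second moment.** -/
theorem second : ∃ C : ℝ, 0 < C ∧ ∃ N₀ : ℕ, ∀ N : ℕ, N₀ ≤ N → ∀ M : ℤ,
    ∀ I : Finset ℕ, I ⊆ Icc 1 N → (∀ n ∈ I, 0 ≤ (n : ℤ) ^ 2 + M) → ∀ K : ℕ, (N : ℝ) ^ (0.84 : ℝ) ≤ K →
    ∑ j ∈ Ioc 0 K, Rk I (M + (j : ℕ)) ^ 2 ≤ C * N ^ 2 * K / Real.log N ^ 2 := by
  classical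
  obtain ⟨C₁, hC₁, u₀, hps⟩ := pair_sieve
  obtain ⟨C₂, hC₂, hs4⟩ := Pool.Agent.H684R3.sum_sg_four
  have t1 := ((tendsto_rpow_atTop (show (0 : ℝ) < 0.84 by norm_num)).comp
    (tendsto_natCast_atTop_atTop (R := ℝ))).eventually (Filter.eventually_ge_atTop (u₀ : ℝ))
  obtain ⟨N₀, hN₀⟩ := Filter.eventually_atTop.1 (t1.and (Filter.eventually_ge_atTop 100))
  refine ⟨4 + 8 * (C₁ * C₂), by positivity, N₀, fun N hN M I hI hnn K hK => ?_⟩
  obtain ⟨g1, g2⟩ := hN₀ N hN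
  simp only [Function.comp] at g1
  have hN100 : (100 : ℝ) ≤ N := by exact_mod_cast g2
  have hNp : (0 : ℝ) < N := by linarith
  have hln : 0 < Real.log N := Real.log_pos (by linarith)
  have huK : u₀ ≤ K := by
    have : (u₀ : ℝ) ≤ K := g1.trans hK
    exact_mod_cast this
  have hKp : (0 : ℝ) < K := lt_of_lt_of_le (Real.rpow_pos_of_pos hNp _) hK
  have hlK : 0.84 * Real.log N ≤ Real.log K := by
    rw [← Real.log_rpow hNp]
    exact Real.log_le_log (Real.rpow_pos_of_pos hNp _) hK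
  set D : ℝ := C₁ * K / Real.log K ^ 2 with hD
  have hD0 : 0 ≤ D := by positivity
  have hDle : D ≤ 2 * (C₁ * K / Real.log N ^ 2) := by
    rw [hD]
    have h1 : Real.log N ^ 2 / 2 ≤ Real.log K ^ 2 := by nlinarith
    calc C₁ * K / Real.log K ^ 2 ≤ C₁ * K / (Real.log N ^ 2 / 2) :=
          div_le_div_of_nonneg_left (by positivity) (by positivity) h1
      _ = _ := by
          field_simp
  -- expansion of the square
  have e1 : ∑ j ∈ Ioc 0 K, Rk I (M + (j : ℕ)) ^ 2 =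
      ∑ n ∈ I, ∑ n' ∈ I, Pr K ((n : ℤ) ^ 2 + M) ((n' : ℤ) ^ 2 + M) := by
    unfold Rk Pr
    calc ∑ j ∈ Ioc 0 K, (∑ n ∈ I, ind ((n : ℤ) ^ 2 + (M + (j : ℕ)))) ^ 2 =
        ∑ j ∈ Ioc 0 K, ∑ n ∈ I, ∑ n' ∈ I, ind ((n : ℤ) ^ 2 + M + (j : ℕ)) * ind ((n' : ℤ) ^ 2 + M + (j : ℕ)) := by
          refine sum_congr rfl fun j _ => ?_
          rw [sq, sum_mul_sum]
          simp only [add_assoc]
      _ = _ := by
          rw [sum_comm]
          refine sum_congr rfl fun n _ => ?_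
          rw [sum_comm]
  -- one row
  have hrow : ∀ n ∈ I, ∑ n' ∈ I, Pr K ((n : ℤ) ^ 2 + M) ((n' : ℤ) ^ 2 + M) ≤ K + 4 * (C₂ * N) * D := by
    intro n hn
    have hnI := mem_Icc.1 (hI hn)
    have hsplit : I = (I.filter fun n' => n' < n) ∪ ({n} ∪ (I.filter fun n' => n < n')) := by
      ext x
      simp only [mem_union, mem_filter, mem_singleton]
      constructor
      · intro hx
        rcases lt_trichotomy x n with h | h | h
        · exact Or.inl ⟨hx, h⟩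
        · exact Or.inr (Or.inl h)
        · exact Or.inr (Or.inr ⟨hx, h⟩)
      · rintro (h | h | h)
        · exact h.1
        · rw [h]
          exact hn
        · exact h.1
    have hA : ∑ n' ∈ I.filter (fun n' => n' < n), Pr K ((n : ℤ) ^ 2 + M) ((n' : ℤ) ^ 2 + M) ≤
        (∑ n' ∈ I.filter (fun n' => n' < n), sg (n - n') ^ 4 + ∑ n' ∈ I.filter (fun n' => n' < n), sg (n' + n) ^ 4) * D := by
      rw [← sum_add_distrib, sum_mul]
      refine sum_le_sum fun n' hn' => ?_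
      rw [mem_filter] at hn'
      rw [Pr_comm]
      exact pair_bound hC₁ hps huK (hnn n' hn'.1) hn'.2
    have hB : ∑ n' ∈ I.filter (fun n' => n < n'), Pr K ((n : ℤ) ^ 2 + M) ((n' : ℤ) ^ 2 + M) ≤
        (∑ n' ∈ I.filter (fun n' => n < n'), sg (n' - n) ^ 4 + ∑ n' ∈ I.filter (fun n' => n < n'), sg (n + n') ^ 4) * D := by
      rw [← sum_add_distrib, sum_mul]
      refine sum_le_sum fun n' hn' => ?_
      rw [mem_filter] at hn'
      exact pair_bound hC₁ hps huK (hnn n hn) hn'.2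
    have p0 : ∀ x : ℕ, 0 ≤ sg x ^ 4 := fun x => pow_nonneg (sg_nonneg x) 4
    have s1 : ∑ n' ∈ I.filter (fun n' => n' < n), sg (n - n') ^ 4 ≤ C₂ * N := by
      refine le_trans (sum_inj_le (J := Icc 1 N) (g := fun x => n - x) (f := fun x => sg x ^ 4) p0 ?_ ?_) (hs4 N)
      · intro x hx y hy h
        rw [mem_coe, mem_filter] at hx hy
        have : n - x = n - y := h
        omega
      · intro x hx
        rw [mem_filter] at hx
        rw [mem_Icc]
        omega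
    have s2 : ∑ n' ∈ I.filter (fun n' => n < n'), sg (n' - n) ^ 4 ≤ C₂ * N := by
      refine le_trans (sum_inj_le (J := Icc 1 N) (g := fun x => x - n) (f := fun x => sg x ^ 4) p0 ?_ ?_) (hs4 N)
      · intro x hx y hy h
        rw [mem_coe, mem_filter] at hx hy
        have : x - n = y - n := h
        omega
      · intro x hx
        rw [mem_filter] at hx
        have hx2 := mem_Icc.1 (hI hx.1)
        rw [mem_Icc]
        omega
    have s3 : ∑ n' ∈ I.filter (fun n' => n' < n), sg (n' + n) ^ 4 + ∑ n' ∈ I.filter (fun n' => n < n'), sg (n + n') ^ 4 ≤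
        2 * (C₂ * N) := by
      have s4 : ∑ n' ∈ I.filter (fun n' => n' < n), sg (n' + n) ^ 4 + ∑ n' ∈ I.filter (fun n' => n < n'), sg (n + n') ^ 4 =
          ∑ n' ∈ (I.filter (fun n' => n' < n)) ∪ (I.filter (fun n' => n < n')), sg (n + n') ^ 4 := by
        rw [sum_union]
        · congr 1
          exact sum_congr rfl fun x _ => by rw [add_comm]
        · rw [disjoint_left]
          intro x hx hy
          rw [mem_filter] at hx hy
          omega
      rw [s4]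
      have s5 := hs4 (2 * N)
      push_cast at s5
      refine le_trans (sum_inj_le (J := Icc 1 (2 * N)) (g := fun x => n + x) (f := fun x => sg x ^ 4) p0 ?_ ?_) (by linarith)
      · intro x hx y hy h
        have : n + x = n + y := h
        omega
      · intro x hx
        rw [mem_union, mem_filter, mem_filter] at hx
        have hx2 : x ∈ I := hx.elim (fun h => h.1) fun h => h.1
        have hx3 := mem_Icc.1 (hI hx2)
        rw [mem_Icc]
        omega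
    have hd1 : Disjoint (I.filter fun n' => n' < n) ({n} ∪ (I.filter fun n' => n < n')) := by
      rw [disjoint_left]
      intro x hx hy
      simp only [mem_union, mem_filter, mem_singleton] at hx hy
      rcases hy with hy | hy <;> omega
    have hd2 : Disjoint ({n} : Finset ℕ) (I.filter fun n' => n < n') := by
      rw [disjoint_left]
      intro x hx hy
      simp only [mem_filter, mem_singleton] at hx hy
      omega
    rw [hsplit, sum_union hd1, sum_union hd2, sum_singleton]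
    have hdiag := Pr_le K ((n : ℤ) ^ 2 + M) ((n : ℤ) ^ 2 + M)
    have s6 : (∑ n' ∈ I.filter (fun n' => n' < n), sg (n - n') ^ 4 + ∑ n' ∈ I.filter (fun n' => n' < n), sg (n' + n) ^ 4) * D +
        (∑ n' ∈ I.filter (fun n' => n < n'), sg (n' - n) ^ 4 + ∑ n' ∈ I.filter (fun n' => n < n'), sg (n + n') ^ 4) * D ≤
        4 * (C₂ * N) * D := by
      rw [← add_mul]
      exact mul_le_mul_of_nonneg_right (by linarith) hD0
    linarith
  have hcardI : (I.card : ℝ) ≤ N := by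
    have h1 : I.card ≤ N := by
      have := card_le_card hI
      rwa [Nat.card_Icc, Nat.add_sub_cancel] at this
    exact_mod_cast h1
  -- the diagonal
  have hlog : Real.log N ^ 2 ≤ 4 * N := by
    have h1 : Real.log (Real.sqrt N) ≤ Real.sqrt N := by
      have := Real.log_le_sub_one_of_pos (Real.sqrt_pos.2 hNp)
      linarith
    rw [Real.log_sqrt hNp.le] at h1
    have h2 : Real.sqrt N ^ 2 = N := Real.sq_sqrt hNp.le
    nlinarith [Real.sqrt_nonneg (N : ℝ)]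
  have hdg : (N : ℝ) * K ≤ 4 * ((N : ℝ) ^ 2 * K / Real.log N ^ 2) := by
    rw [← mul_div_assoc, le_div_iff₀ (by positivity)]
    have h1 : 0 ≤ (N : ℝ) * K := by positivity
    nlinarith
  rw [e1]
  calc ∑ n ∈ I, ∑ n' ∈ I, Pr K ((n : ℤ) ^ 2 + M) ((n' : ℤ) ^ 2 + M) ≤ ∑ n ∈ I, (K + 4 * (C₂ * N) * D) := sum_le_sum hrow
    _ = I.card * (K + 4 * (C₂ * N) * D) := by rw [sum_const, nsmul_eq_mul]
    _ ≤ N * (K + 4 * (C₂ * N) * D) := mul_le_mul_of_nonneg_right hcardI (by positivity)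
    _ = N * K + 4 * (C₂ * N) * N * D := by ring
    _ ≤ 4 * ((N : ℝ) ^ 2 * K / Real.log N ^ 2) + 4 * (C₂ * N) * N * (2 * (C₁ * K / Real.log N ^ 2)) :=
        add_le_add hdg (mul_le_mul_of_nonneg_left hDle (by positivity))
    _ = _ := by ring

/-- one block of shifts -/
theorem block {δ : ℝ} (hδ : 0 < δ) (hδ1 : δ ≤ 1) : ∃ c : ℝ, 0 < c ∧ ∃ N₀ : ℕ, ∀ N : ℕ, N₀ ≤ N → ∀ M : ℤ,
    -(δ * N) ^ 2 / 2 ≤ M → (M : ℝ) + ⌈(N : ℝ) ^ (0.84 : ℝ)⌉₊ ≤ (N : ℝ) ^ 2 →
    ∀ I : Finset ℕ, (∀ n ∈ I, n ≤ N ∧ δ * N ≤ n) → δ * N ≤ I.card →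
    c * ⌈(N : ℝ) ^ (0.84 : ℝ)⌉₊ ≤
      ((Ioc 0 ⌈(N : ℝ) ^ (0.84 : ℝ)⌉₊).filter fun j => c * N / Real.log N ≤ Rk I (M + (j : ℕ))).card := by
  classical
  obtain ⟨c, hc, N₁, h1⟩ := first hδ hδ1
  obtain ⟨C, hC, N₂, h2⟩ := second
  have hc' : 0 < min (c / 2) (c ^ 2 / (4 * C)) := lt_min (by positivity) (by positivity)
  refine ⟨min (c / 2) (c ^ 2 / (4 * C)), hc', max (max N₁ N₂) 3, fun N hN M hM1 hM2 I hI1 hI2 => ?_⟩
  have hN3 : (3 : ℝ) ≤ N := by exact_mod_cast (le_max_right _ _).trans hN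
  have hNp : (0 : ℝ) < N := by linarith
  have hδN : 0 < δ * N := by positivity
  have f1 := h1 N (le_trans (le_max_left _ _) (le_trans (le_max_left _ _) hN)) M hM1 hM2 I hI1 hI2
  have f2 := h2 N (le_trans (le_max_right _ _) (le_trans (le_max_left _ _) hN)) M I (by
      intro n hn
      rw [mem_Icc]
      refine ⟨?_, (hI1 n hn).1⟩
      have h3 : (0 : ℝ) < n := lt_of_lt_of_le hδN (hI1 n hn).2
      have h4 : 0 < n := by exact_mod_cast h3
      omega) (by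
      intro n hn
      have h3 : (δ * N) ^ 2 ≤ (n : ℝ) ^ 2 := pow_le_pow_left₀ hδN.le (hI1 n hn).2 2
      have h4 : (0 : ℝ) ≤ ((n : ℤ) ^ 2 + M : ℤ) := by
        push_cast
        nlinarith
      exact_mod_cast h4)
    ⌈(N : ℝ) ^ (0.84 : ℝ)⌉₊ (Nat.le_ceil _)
  have hln : 0 < Real.log N := Real.log_pos (by linarith)
  set K : ℕ := ⌈(N : ℝ) ^ (0.84 : ℝ)⌉₊ with hK
  have hKp : (0 : ℝ) < K := lt_of_lt_of_le (Real.rpow_pos_of_pos hNp (0.84 : ℝ)) (Nat.le_ceil _)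
  set b : ℝ := min (c / 2) (c ^ 2 / (4 * C)) with hb
  have hb1 : b ≤ c / 2 := min_le_left _ _
  have hb2 : b ≤ c ^ 2 / (4 * C) := min_le_right _ _
  set G : Finset ℕ := (Ioc 0 K).filter fun j => b * N / Real.log N ≤ Rk I (M + (j : ℕ)) with hG
  have h3 : ∑ j ∈ Ioc 0 K, Rk I (M + (j : ℕ)) ≤ ∑ j ∈ G, Rk I (M + (j : ℕ)) + c / 2 * N * K / Real.log N := by
    rw [← sum_filter_add_sum_filter_not (Ioc 0 K) fun j : ℕ => b * N / Real.log N ≤ Rk I (M + (j : ℕ))]
    refine add_le_add le_rfl ?_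
    calc ∑ j ∈ (Ioc 0 K).filter (fun j : ℕ => ¬ b * N / Real.log N ≤ Rk I (M + (j : ℕ))), Rk I (M + (j : ℕ)) ≤
        ∑ j ∈ (Ioc 0 K).filter (fun j : ℕ => ¬ b * N / Real.log N ≤ Rk I (M + (j : ℕ))), (c / 2 * N / Real.log N) := by
          refine sum_le_sum fun j hj => ?_
          rw [mem_filter] at hj
          have h4 := (not_le.1 hj.2).le
          refine h4.trans ?_
          gcongr
      _ ≤ ∑ j ∈ Ioc 0 K, (c / 2 * N / Real.log N) :=
          sum_le_sum_of_subset_of_nonneg (filter_subset _ _) fun _ _ _ => by positivity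
      _ = c / 2 * N * K / Real.log N := by
          rw [sum_const, Nat.card_Ioc, nsmul_eq_mul, Nat.sub_zero]
          ring
  have h4 : c / 2 * N * K / Real.log N ≤ ∑ j ∈ G, Rk I (M + (j : ℕ)) := by
    have : c * N * K / Real.log N = c / 2 * N * K / Real.log N + c / 2 * N * K / Real.log N := by ring
    linarith
  have h5 : (∑ j ∈ G, Rk I (M + (j : ℕ))) ^ 2 ≤ G.card * ∑ j ∈ G, Rk I (M + (j : ℕ)) ^ 2 := sq_sum_le_card_mul_sum_sq
  have h6 : ∑ j ∈ G, Rk I (M + (j : ℕ)) ^ 2 ≤ ∑ j ∈ Ioc 0 K, Rk I (M + (j : ℕ)) ^ 2 :=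
    sum_le_sum_of_subset_of_nonneg (filter_subset _ _) fun _ _ _ => sq_nonneg _
  have h7 : (c / 2 * N * K / Real.log N) ^ 2 ≤ G.card * (C * N ^ 2 * K / Real.log N ^ 2) := by
    calc (c / 2 * N * K / Real.log N) ^ 2 ≤ (∑ j ∈ G, Rk I (M + (j : ℕ))) ^ 2 := pow_le_pow_left₀ (by positivity) h4 2
      _ ≤ G.card * ∑ j ∈ G, Rk I (M + (j : ℕ)) ^ 2 := h5
      _ ≤ _ := mul_le_mul_of_nonneg_left (h6.trans f2) (Nat.cast_nonneg _)
  have h8 : c ^ 2 / (4 * C) * K ≤ G.card := by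
    have e1 : (c / 2 * N * K / Real.log N) ^ 2 = (c ^ 2 / (4 * C) * K) * (C * N ^ 2 * K / Real.log N ^ 2) := by
      field_simp
      ring
    rw [e1] at h7
    exact le_of_mul_le_mul_right h7 (by positivity)
  calc b * K ≤ c ^ 2 / (4 * C) * K := mul_le_mul_of_nonneg_right hb2 hKp.le
    _ ≤ G.card := h8

/-- **Primes `n ^ 2 + k`, with `k` in a short interval and `n` in a dense set.** -/
theorem short_shifts {δ : ℝ} (hδ : 0 < δ) : ∃ c : ℝ, 0 < c ∧ ∃ N₀ : ℕ, ∀ N : ℕ, N₀ ≤ N → ∀ (M : ℤ) (K : ℕ),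
    (N : ℝ) ^ (0.84 : ℝ) ≤ K → -(δ * N) ^ 2 / 8 ≤ M → (M : ℝ) + K ≤ (N : ℝ) ^ 2 →
    ∀ A : Finset ℕ, A ⊆ Icc 1 N → δ * N ≤ A.card →
    c * K ≤ ((Ioc M (M + K)).filter fun k : ℤ =>
      c * N / Real.log N ≤ (A.filter fun n : ℕ => ((n : ℤ) ^ 2 + k).toNat.Prime).card).card := by
  classical
  by_cases hδ1 : 1 < δ
  · refine ⟨1, one_pos, 1, fun N hN M K _ _ _ A hA hA2 => ?_⟩
    exfalso
    have h1 := card_le_card hA
    rw [Nat.card_Icc, Nat.add_sub_cancel] at h1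
    have h2 : (A.card : ℝ) ≤ N := by exact_mod_cast h1
    have h3 : (1 : ℝ) ≤ N := by exact_mod_cast hN
    nlinarith
  push Not at hδ1
  obtain ⟨c, hc, N₀, h⟩ := block (δ := δ / 2) (by positivity) (by linarith)
  refine ⟨c / 2, by positivity, max N₀ 3, fun N hN M K hK hM1 hM2 A hA hA2 => ?_⟩
  have hN3 : (3 : ℝ) ≤ N := by exact_mod_cast (le_max_right _ _).trans hN
  have hNp : (0 : ℝ) < N := by linarith
  have hln : 0 < Real.log N := Real.log_pos (by linarith)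
  -- the large elements of `A`
  set I : Finset ℕ := A.filter fun n : ℕ => δ / 2 * N ≤ n with hI
  have hI1 : ∀ n ∈ I, n ≤ N ∧ δ / 2 * N ≤ n := by
    intro n hn
    rw [hI, mem_filter] at hn
    exact ⟨(mem_Icc.1 (hA hn.1)).2, hn.2⟩
  have hI2 : δ / 2 * N ≤ I.card := by
    have h1 := card_filter_add_card_filter_not (s := A) fun n : ℕ => δ / 2 * N ≤ n
    have h2 : (A.filter fun n : ℕ => ¬ δ / 2 * N ≤ n) ⊆ Icc 1 ⌊δ / 2 * N⌋₊ := by
      intro n hn
      rw [mem_filter] at hn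
      rw [mem_Icc]
      exact ⟨(mem_Icc.1 (hA hn.1)).1, Nat.le_floor (not_le.1 hn.2).le⟩
    have h3 := card_le_card h2
    rw [Nat.card_Icc, Nat.add_sub_cancel] at h3
    have h4 : ((A.filter fun n : ℕ => ¬ δ / 2 * N ≤ n).card : ℝ) ≤ δ / 2 * N :=
      le_trans (by exact_mod_cast h3) (Nat.floor_le (by positivity))
    have h5 : (I.card : ℝ) + (A.filter fun n : ℕ => ¬ δ / 2 * N ≤ n).card = A.card := by exact_mod_cast h1
    linarith
  have hRk : ∀ k : ℤ, Rk I k ≤ (A.filter fun n : ℕ => ((n : ℤ) ^ 2 + k).toNat.Prime).card := by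
    intro k
    rw [Rk_eq]
    exact_mod_cast card_le_card (filter_subset_filter _ (filter_subset _ _))
  set K₀ : ℕ := ⌈(N : ℝ) ^ (0.84 : ℝ)⌉₊ with hK₀
  have hK₀p : 0 < K₀ := Nat.ceil_pos.2 (Real.rpow_pos_of_pos hNp _)
  have hKK : K₀ ≤ K := Nat.ceil_le.2 hK
  set q : ℕ := K / K₀ with hq
  have hq1 : q * K₀ ≤ K := Nat.div_mul_le_self K K₀
  have hq2 : K ≤ 2 * (q * K₀) := by
    have h1 : 1 ≤ q := (Nat.one_le_div_iff hK₀p).2 hKK
    have h2 := Nat.lt_div_mul_add hK₀p (a := K)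
    have h3 : K₀ ≤ q * K₀ := Nat.le_mul_of_pos_left _ h1
    have h4 : K < q * K₀ + K₀ := h2
    omega
  set P : ℤ → Prop := fun k => c / 2 * N / Real.log N ≤ (A.filter fun n : ℕ => ((n : ℤ) ^ 2 + k).toNat.Prime).card with hP
  set Bl : ℕ → Finset ℤ := fun i => (Ioc (M + i * K₀) (M + (i + 1) * K₀)).filter P with hBl
  have hblock : ∀ i ∈ range q, c * K₀ ≤ (Bl i).card := by
    intro i hi
    rw [mem_range] at hi
    have h1 : ((i : ℝ) + 1) * K₀ ≤ q * K₀ := by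
      have : ((i : ℝ) + 1) ≤ q := by exact_mod_cast hi
      exact mul_le_mul_of_nonneg_right this (Nat.cast_nonneg _)
    have h2 : (q : ℝ) * K₀ ≤ K := by exact_mod_cast hq1
    have h3 := h N ((le_max_left _ _).trans hN) (M + i * K₀) (by
      push_cast
      have h5 : (0 : ℝ) ≤ i * K₀ := by positivity
      have h6 : -(δ / 2 * (N : ℝ)) ^ 2 / 2 = -(δ * N) ^ 2 / 8 := by ring
      rw [h6]
      linarith) (by
      show ((M + i * K₀ : ℤ) : ℝ) + (K₀ : ℝ) ≤ (N : ℝ) ^ 2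
      push_cast
      linarith) I hI1 hI2
    refine h3.trans ?_
    have h4 : ((Ioc 0 K₀).filter fun j : ℕ => c * N / Real.log N ≤ Rk I (M + i * K₀ + (j : ℕ))).card ≤ (Bl i).card := by
      apply card_le_card_of_injOn (fun j : ℕ => M + i * K₀ + (j : ℤ))
      · intro j hj
        rw [mem_coe, mem_filter, mem_Ioc] at hj
        rw [mem_coe, hBl, mem_filter, mem_Ioc]
        refine ⟨⟨?_, ?_⟩, ?_⟩
        · have : (0 : ℤ) < ((j : ℕ) : ℤ) := by exact_mod_cast hj.1.1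
          linarith
        · have : ((j : ℕ) : ℤ) ≤ K₀ := by exact_mod_cast hj.1.2
          nlinarith
        · have h5 := hj.2.trans (hRk _)
          have h6 : c / 2 * N / Real.log N ≤ c * N / Real.log N := by
            gcongr
            linarith
          exact h6.trans h5
      · intro j _ j' _ h
        have : M + i * K₀ + (j : ℤ) = M + i * K₀ + (j' : ℤ) := h
        omega
    exact_mod_cast h4
  have hdis : ((range q : Finset ℕ) : Set ℕ).PairwiseDisjoint Bl := by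
    intro i _ j _ hij
    rw [Function.onFun, disjoint_left]
    intro x hx hy
    rw [hBl, mem_filter, mem_Ioc] at hx hy
    have hK0' : (0 : ℤ) < K₀ := by exact_mod_cast hK₀p
    rcases Nat.lt_or_gt_of_ne hij with h1 | h1
    · have h2 : ((i : ℤ) + 1) ≤ j := by exact_mod_cast h1
      nlinarith
    · have h2 : ((j : ℤ) + 1) ≤ i := by exact_mod_cast h1
      nlinarith
  have hsub : (range q).biUnion Bl ⊆ (Ioc M (M + K)).filter P := by
    intro x hx
    rw [mem_biUnion] at hx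
    obtain ⟨i, hi, hx⟩ := hx
    rw [mem_range] at hi
    rw [hBl, mem_filter, mem_Ioc] at hx
    rw [mem_filter, mem_Ioc]
    have hK0' : (0 : ℤ) ≤ K₀ := by positivity
    have h1 : ((i : ℤ) + 1) * K₀ ≤ q * K₀ := by
      have : ((i : ℤ) + 1) ≤ q := by exact_mod_cast hi
      exact mul_le_mul_of_nonneg_right this hK0'
    have h2 : (q : ℤ) * K₀ ≤ K := by exact_mod_cast hq1
    have h3 : (0 : ℤ) ≤ i * K₀ := by positivity
    exact ⟨⟨by linarith, by linarith⟩, hx.2⟩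
  have h1 := card_le_card hsub
  rw [card_biUnion hdis] at h1
  have h2 : (q : ℝ) * (c * K₀) ≤ ((∑ i ∈ range q, (Bl i).card : ℕ) : ℝ) := by
    push_cast
    calc (q : ℝ) * (c * K₀) = ∑ i ∈ range q, c * K₀ := by rw [sum_const, card_range, nsmul_eq_mul]
      _ ≤ _ := sum_le_sum hblock
  have h3 : (K : ℝ) ≤ 2 * (q * K₀) := by exact_mod_cast hq2
  have h4 : ((∑ i ∈ range q, (Bl i).card : ℕ) : ℝ) ≤ (((Ioc M (M + K)).filter P).card : ℕ) := by exact_mod_cast h1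
  calc c / 2 * K ≤ (q : ℝ) * (c * K₀) := by nlinarith
    _ ≤ _ := h2.trans h4

end Pool.Agent.J6H45.PI
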