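import Pool.Agent.J6H45.PI.Gap

/-!
# Applications: sequences with large steps, sequences with a parameter, the intervals of Oppermann
-/

set_option autoImplicit false

open Finset

namespace Pool.Agent.J6H45.PI

open Pool.Agent.Q240.KS (MAINP)
open Pool.Agent.J6H45.WF (Sparse)

/-- the two pairs: `θ` is the exponent of the length of the intervals, `X ^ e` bounds the number of poor intervals -/
def Pair (θ e : ℝ) : Prop := (θ = 1 / 2 ∧ e = 0.306) ∨ (θ = 3 / 16 ∧ e = 13 / 16)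

theorem pairs {θ e : ℝ} (h : Pair θ e) : ∃ c η : ℝ, 0 < c ∧ 0 < η ∧ η < e ∧ η < θ ∧ ∃ C : ℝ, 0 ≤ C ∧ ∃ T : Set ℕ,
      (∀ X : ℝ, 1 ≤ X → {t | t ∈ T ∧ (t : ℝ) ≤ X}.Finite ∧
        (({t | t ∈ T ∧ (t : ℝ) ≤ X}.ncard : ℕ) : ℝ) ≤ C * X ^ (e - η)) ∧
      ∀ y : ℝ, 1 ≤ y → ¬ Strong c θ η y → ∃ t ∈ T, |(t : ℝ) - y| ≤ y ^ θ := by
  have key : ∀ lam0 : ℝ, 1 / 10 ≤ lam0 → lam0 < 1 → θ = 1 - lam0 → 0 < e → MAINP lam0 e → _ := fun lam0 h1 h2 h3 h4 H =>
    strong h1 h2 h4 H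
  have conv : ∀ lam0 : ℝ, 1 / 10 ≤ lam0 → lam0 < 1 → θ = 1 - lam0 → 0 < e → MAINP lam0 e → ∃ c η : ℝ, 0 < c ∧ 0 < η ∧
      η < e ∧ η < θ ∧ ∃ C : ℝ, 0 ≤ C ∧ ∃ T : Set ℕ,
      (∀ X : ℝ, 1 ≤ X → {t | t ∈ T ∧ (t : ℝ) ≤ X}.Finite ∧
        (({t | t ∈ T ∧ (t : ℝ) ≤ X}.ncard : ℕ) : ℝ) ≤ C * X ^ (e - η)) ∧
      ∀ y : ℝ, 1 ≤ y → ¬ Strong c θ η y → ∃ t ∈ T, |(t : ℝ) - y| ≤ y ^ θ := by
    intro lam0 h1 h2 h3 h4 H
    obtain ⟨c, η, g1, g2, g3, g4, C, g5, T, g6, g7⟩ := strong h1 h2 h4 H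
    rw [← h3] at g4
    refine ⟨c, η, g1, g2, g3, g4, C, g5, T, g6, fun y hy hbad => ?_⟩
    rw [h3] at hbad
    obtain ⟨t, ht, h⟩ := g7 y hy hbad
    refine ⟨t, ht, h.trans ?_⟩
    apply Real.rpow_le_rpow_of_exponent_le hy
    rw [h3]
    linarith
  rcases h with ⟨h1, h2⟩ | ⟨h1, h2⟩
  · subst h2
    exact conv (1 / 2) (by norm_num) (by norm_num) (by rw [h1]; norm_num) (by norm_num) Pool.Agent.Q278.KT.mainp_half
  · subst h2
    exact conv (13 / 16) (by norm_num) (by norm_num) (by rw [h1]; norm_num) (by norm_num) Pool.Agent.Q278.KT.mainp_1316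

lemma Pair.bounds {θ e : ℝ} (h : Pair θ e) : 0 < θ ∧ θ < 1 ∧ 0 < e ∧ e + θ ≤ 1 := by
  rcases h with ⟨h1, h2⟩ | ⟨h1, h2⟩ <;> rw [h1, h2] <;> norm_num

theorem sparse_G {θ e : ℝ} (h : Pair θ e) : ∃ c η : ℝ, 0 < c ∧ 0 < η ∧ η < e ∧ η < θ ∧ ∀ (G : ℕ → ℝ) (d : ℝ), Steps G d →
    ∃ C : ℝ, Sparse C (d * (e - η) + max 0 (1 - d * (1 - θ))) (Around (Strong c θ η) G θ) := by
  obtain ⟨c, η, g1, g2, g3, g4, C, g5, T, g6, g7⟩ := pairs h
  obtain ⟨h1, h2, h3, -⟩ := h.bounds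
  exact ⟨c, η, g1, g2, g3, g4, fun G d hG => sparse_steps g5 (by linarith) g6 h1 h2 g7 hG⟩

theorem steps_pow {α d : ℝ} (hα : 0 < α) (hd : 1 ≤ d) : Steps (fun v => α * (v : ℝ) ^ d) d := by
  refine ⟨hd, α, α, hα, fun v hv => ?_⟩
  have hv1 : (1 : ℝ) ≤ v := by exact_mod_cast hv
  have hv0 : (0 : ℝ) < v := by linarith
  have e1 : (v : ℝ) ^ d = (v : ℝ) ^ (d - 1) * v := by
    rw [← Real.rpow_add_one (by linarith)]
    ring_nf
  have e2 : ((v : ℝ) + 1) ^ d = ((v : ℝ) + 1) ^ (d - 1) * (v + 1) := by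
    rw [← Real.rpow_add_one (by linarith)]
    ring_nf
  have e3 : (v : ℝ) ^ (d - 1) ≤ ((v : ℝ) + 1) ^ (d - 1) := Real.rpow_le_rpow (by linarith) (by linarith) (by linarith)
  have e4 : (v : ℝ) ^ (d - 1) + (v : ℝ) ^ d ≤ ((v : ℝ) + 1) ^ d := by
    rw [e1, e2]
    nlinarith
  refine ⟨?_, by positivity, le_rfl⟩
  push_cast
  nlinarith

/-- **Sequences with a real parameter.** -/
theorem star_P {T : Set ℕ} {C s θ : ℝ} (hC : 0 ≤ C) (hs : 0 ≤ s)
    (hT : ∀ X : ℝ, 1 ≤ X → {t | t ∈ T ∧ (t : ℝ) ≤ X}.Finite ∧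
      (({t | t ∈ T ∧ (t : ℝ) ≤ X}.ncard : ℕ) : ℝ) ≤ C * X ^ s)
    (hθ : 0 < θ) (hθ1 : θ < 1) {P : ℝ → Prop} (hP : ∀ y : ℝ, 1 ≤ y → ¬ P y → ∃ t ∈ T, |(t : ℝ) - y| ≤ y ^ θ)
    {f : ℕ → ℝ → ℝ} {a τ : ℝ} (hf : Pool.Agent.R482.ST.Starshaped a f) (hτ : 0 ≤ τ)
    (hv : Pool.Agent.R482.ST.Conv a f τ) :
    ∃ E : Set ℝ, dimH E ≤ ENNReal.ofReal ((s + τ) / (1 - θ)) ∧ ∀ x : ℝ, a < x → x ∉ E → ∀ c : ℝ,
      ∃ l₀ : ℕ, ∀ l : ℕ, l₀ ≤ l → ∀ y : ℝ, 1 ≤ y → |y - f l x| ≤ c * (f l x) ^ θ → P y := by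
  obtain ⟨E, h1, h2⟩ := Pool.Agent.R482.ST.windows T (fun n : ℕ => (n : ℝ)) hf hτ hv hs hθ1
    (fun ε hε => ⟨C, fun X hX => ⟨(hT X hX).1, (hT X hX).2.trans
      (mul_le_mul_of_nonneg_left (Real.rpow_le_rpow_of_exponent_le hX (by linarith)) hC)⟩⟩)
  refine ⟨E, h1, fun x hx hxE c => ?_⟩
  set b : ℝ := 1 + |c| with hb
  have hb1 : 1 ≤ b := by
    rw [hb]
    linarith [abs_nonneg c]
  obtain ⟨n₀, hn₀⟩ := h2 x hx hxE (b ^ 2 + b)
  refine ⟨n₀, fun j hj y hy hyw => ?_⟩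
  by_contra hbad
  obtain ⟨t, ht, ht2⟩ := hP y hy hbad
  refine absurd (hn₀ j hj t ht) (not_lt.2 ?_)
  set g : ℝ := f j x with hg
  have hg0 : 0 < g := (hf.2 j x x hx le_rfl).1
  have hgθ : 0 < g ^ θ := Real.rpow_pos_of_pos hg0 _
  have hcb : |y - g| ≤ |c| * g ^ θ := hyw.trans (mul_le_mul_of_nonneg_right (le_abs_self c) hgθ.le)
  have hyg : y ≤ g + |c| * g ^ θ := by
    have := (abs_le.1 hcb).2
    linarith
  have hy0 : 0 ≤ y := by linarith
  have hyθ : y ^ θ ≤ b ^ 2 * g ^ θ := by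
    by_cases hg1 : 1 ≤ g
    · have h3 : g ^ θ ≤ g := by
        calc g ^ θ ≤ g ^ (1 : ℝ) := Real.rpow_le_rpow_of_exponent_le hg1 hθ1.le
          _ = g := Real.rpow_one g
      have h4 : y ≤ b * g := by
        have := mul_le_mul_of_nonneg_left h3 (abs_nonneg c)
        rw [hb]
        linarith
      calc y ^ θ ≤ (b * g) ^ θ := Real.rpow_le_rpow hy0 h4 hθ.le
        _ = b ^ θ * g ^ θ := Real.mul_rpow (by linarith) hg0.le
        _ ≤ b ^ 2 * g ^ θ := by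
            refine mul_le_mul_of_nonneg_right ?_ hgθ.le
            calc b ^ θ ≤ b ^ (1 : ℝ) := Real.rpow_le_rpow_of_exponent_le hb1 hθ1.le
              _ = b := Real.rpow_one b
              _ ≤ b ^ 2 := by nlinarith
    · push Not at hg1
      have h3 : g ≤ g ^ θ := by
        calc g = g ^ (1 : ℝ) := (Real.rpow_one g).symm
          _ ≤ g ^ θ := Real.rpow_le_rpow_of_exponent_ge hg0 hg1.le hθ1.le
      have h4 : g ^ θ ≤ 1 := Real.rpow_le_one hg0.le hg1.le hθ.le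
      have h5 : y ≤ b * g ^ θ := by
        rw [hb]
        linarith
      have h6 : y ≤ b := h5.trans (by nlinarith)
      have h7 : y ^ θ ≤ y := by
        calc y ^ θ ≤ y ^ (1 : ℝ) := Real.rpow_le_rpow_of_exponent_le hy hθ1.le
          _ = y := Real.rpow_one y
      have h8 : y ≤ b ^ 2 * g ^ θ := by
        calc y ≤ b * g ^ θ := h5
          _ ≤ b ^ 2 * g ^ θ := mul_le_mul_of_nonneg_right (by nlinarith) hgθ.le
      exact h7.trans h8
  calc |(t : ℝ) - g| = |((t : ℝ) - y) + (y - g)| := by congr 1; ring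
    _ ≤ |(t : ℝ) - y| + |y - g| := abs_add_le _ _
    _ ≤ y ^ θ + |c| * g ^ θ := add_le_add ht2 hcb
    _ ≤ b ^ 2 * g ^ θ + b * g ^ θ := by
        refine add_le_add hyθ (mul_le_mul_of_nonneg_right ?_ hgθ.le)
        rw [hb]
        linarith
    _ = (b ^ 2 + b) * g ^ θ := by ring

/-- every interval `(a, b]` inside `[n ^ 2 - n, n ^ 2 + n]` of length at least `n ^ (1 - η)` contains at least
`c (b - a) / log n` primes -/
def Opp (c η : ℝ) (n : ℕ) : Prop :=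
  ∀ a b : ℝ, (n : ℝ) ^ 2 - n ≤ a → b ≤ (n : ℝ) ^ 2 + n → (n : ℝ) ^ (1 - η) ≤ b - a →
    c * (b - a) / Real.log n ≤ np a b

lemma np_add {a b c : ℝ} (h1 : a ≤ b) (h2 : b ≤ c) : np a b + np b c = np a c := by
  unfold np
  rw [← card_union_of_disjoint, ← filter_union, Ioc_union_Ioc_eq_Ioc (Nat.floor_le_floor h1) (Nat.floor_le_floor h2)]
  apply disjoint_filter_filter
  rw [disjoint_left]
  intro x hx hx'
  rw [mem_Ioc] at hx hx'
  omega

lemma np_steps {a H m : ℝ} (hH : 0 ≤ H) (J : ℕ) (h : ∀ j < J, m ≤ np (a + j * H) (a + (j + 1) * H)) :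
    (J : ℝ) * m ≤ np a (a + J * H) := by
  induction J with
  | zero => simp
  | succ J ih =>
    have h1 := ih fun j hj => h j (by omega)
    have h2 := h J (by omega)
    have h3 := np_add (a := a) (b := a + J * H) (c := a + (J + 1) * H) (by
      have : 0 ≤ (J : ℝ) * H := by positivity
      linarith) (by nlinarith)
    have h4 : ((np a (a + J * H) : ℕ) : ℝ) + np (a + J * H) (a + (J + 1) * H) = np a (a + (J + 1) * H) := by
      exact_mod_cast h3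
    push_cast
    linarith

/-- **The intervals of Oppermann.** -/
theorem sparse_opp : ∃ c η C : ℝ, 0 < c ∧ 0 < η ∧ η < 0.306 ∧ Sparse C (0.612 - 2 * η) (Opp c η) := by
  classical
  obtain ⟨c, η, hc, hη, hηe, hηθ, H⟩ := sparse_G (θ := 1 / 2) (e := 0.306) (Or.inl ⟨rfl, rfl⟩)
  obtain ⟨C, hC⟩ := H (fun n => 1 * (n : ℝ) ^ (2 : ℝ)) 2 (steps_pow one_pos (by norm_num))
  have hs : 2 * (0.306 - η) + max 0 (1 - 2 * (1 - 1 / 2)) = 0.612 - 2 * η := by
    norm_num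
    ring
  rw [hs] at hC
  -- large `n`
  have h1 := (tendsto_rpow_atTop hη).eventually (Filter.eventually_ge_atTop 4)
  obtain ⟨y₀, hy₀⟩ := Filter.eventually_atTop.1 h1
  obtain ⟨A, hA⟩ := exists_nat_ge (max y₀ 4)
  have key : ∀ n : ℕ, A ≤ n → Around (Strong c (1 / 2) η) (fun n => 1 * (n : ℝ) ^ (2 : ℝ)) (1 / 2) n → Opp (c / 12) η n := by
    intro n hn hgood a b ha hb hab
    have hnA : (A : ℝ) ≤ n := by exact_mod_cast hn
    have hn4 : (4 : ℝ) ≤ n := (le_max_right _ _).trans (hA.trans hnA)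
    have hny : (4 : ℝ) ≤ (n : ℝ) ^ η := hy₀ n ((le_max_left _ _).trans (hA.trans hnA))
    have hn0 : (0 : ℝ) < n := by linarith
    have hln : 0 < Real.log n := Real.log_pos (by linarith)
    have hG : (1 : ℝ) * (n : ℝ) ^ (2 : ℝ) = (n : ℝ) ^ 2 := by
      rw [one_mul]
      exact_mod_cast Real.rpow_natCast (n : ℝ) 2
    have hG2 : ((n : ℝ) ^ 2) ^ (1 / 2 : ℝ) = n := by
      rw [← Real.sqrt_eq_rpow, Real.sqrt_sq hn0.le]
    have hstr : ∀ y : ℝ, (n : ℝ) ^ 2 - n ≤ y → y ≤ (n : ℝ) ^ 2 + n → Rich c (1 / 2 - η) y := by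
      intro y h1 h2
      refine (hgood y (by nlinarith) ?_).1
      show |y - 1 * (n : ℝ) ^ (2 : ℝ)| ≤ (1 * (n : ℝ) ^ (2 : ℝ)) ^ (1 / 2 : ℝ)
      rw [hG, hG2, abs_le]
      constructor <;> linarith
    set θ : ℝ := 1 / 2 - η with hθ
    have hθ0 : 0 < θ := by
      rw [hθ]
      linarith
    set Hh : ℝ := (2 * (n : ℝ) ^ 2) ^ θ with hH
    have hH0 : 0 < Hh := by positivity
    -- `2 H ≤ n ^ (1 - η)`
    have hHn : Hh * 2 ≤ (n : ℝ) ^ (1 - η) := by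
      have h2 : Hh ≤ 2 * (n : ℝ) ^ (1 - 2 * η) := by
        rw [hH, Real.mul_rpow (by norm_num) (by positivity)]
        have h3 : ((n : ℝ) ^ 2) ^ θ = (n : ℝ) ^ (1 - 2 * η) := by
          rw [← Real.rpow_natCast (n : ℝ) 2, ← Real.rpow_mul hn0.le]
          congr 1
          rw [hθ]
          push_cast
          ring
        rw [h3]
        refine mul_le_mul_of_nonneg_right ?_ (by positivity)
        calc (2 : ℝ) ^ θ ≤ 2 ^ (1 : ℝ) := Real.rpow_le_rpow_of_exponent_le (by norm_num) (by linarith)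
          _ = 2 := Real.rpow_one 2
      have h4 : (n : ℝ) ^ (1 - η) = (n : ℝ) ^ (1 - 2 * η) * (n : ℝ) ^ η := by
        rw [← Real.rpow_add hn0]
        congr 1
        ring
      have h5 : (0 : ℝ) < (n : ℝ) ^ (1 - 2 * η) := Real.rpow_pos_of_pos hn0 _
      rw [h4]
      nlinarith
    set J : ℕ := ⌊(b - a) / Hh⌋₊ with hJ
    have hba : 2 * Hh ≤ b - a := by linarith
    have hJ1 : (J : ℝ) * Hh ≤ b - a := by
      have := Nat.floor_le (show 0 ≤ (b - a) / Hh by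
        apply div_nonneg _ hH0.le
        linarith)
      rwa [le_div_iff₀ hH0] at this
    have hJ2 : (b - a) / 2 ≤ (J : ℝ) * Hh := by
      have h2 := Nat.lt_floor_add_one ((b - a) / Hh)
      rw [div_lt_iff₀ hH0] at h2
      have : (b - a) < ((J : ℝ) + 1) * Hh := h2
      linarith
    have hlog : Real.log (2 * (n : ℝ) ^ 2) ≤ 3 * Real.log n := by
      have h2 : 3 * Real.log n = Real.log ((n : ℝ) ^ 3) := by
        rw [Real.log_pow]
        norm_num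
      rw [h2]
      apply Real.log_le_log (by positivity)
      nlinarith [pow_pos hn0 2]
    have hm : ∀ j < J, c * (Hh / 2) / (3 * Real.log n) ≤ np (a + j * Hh) (a + (j + 1) * Hh) := by
      intro j hj
      set y : ℝ := a + j * Hh with hy
      have hjJ : (j : ℝ) + 1 ≤ J := by exact_mod_cast hj
      have hj0 : 0 ≤ (j : ℝ) * Hh := by positivity
      have h2 : ((j : ℝ) + 1) * Hh ≤ J * Hh := mul_le_mul_of_nonneg_right hjJ hH0.le
      have hy1 : (n : ℝ) ^ 2 - n ≤ y := by linarith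
      have hy2 : y + Hh ≤ (n : ℝ) ^ 2 + n := by linarith
      have hyb : y ≤ 2 * (n : ℝ) ^ 2 := by nlinarith
      have hya : (n : ℝ) ^ 2 / 2 ≤ y := by nlinarith
      have hyp : 1 < y := by nlinarith
      have hr := (hstr y hy1 (by linarith)).2
      have hyθ : y ^ θ ≤ Hh := Real.rpow_le_rpow (by linarith) hyb hθ0.le
      have hyθ2 : Hh / 2 ≤ y ^ θ := by
        have h3 : Hh ≤ (4 * y) ^ θ := Real.rpow_le_rpow (by positivity) (by linarith) hθ0.le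
        have h4 : (4 * y) ^ θ = 4 ^ θ * y ^ θ := Real.mul_rpow (by norm_num) (by linarith)
        have h5 : (4 : ℝ) ^ θ ≤ 2 := by
          calc (4 : ℝ) ^ θ ≤ 4 ^ (1 / 2 : ℝ) := Real.rpow_le_rpow_of_exponent_le (by norm_num) (by linarith)
            _ = 2 := by
                rw [← Real.sqrt_eq_rpow, show (4 : ℝ) = 2 ^ 2 by norm_num, Real.sqrt_sq (by norm_num)]
        have h6 : 0 < y ^ θ := Real.rpow_pos_of_pos (by linarith) _
        nlinarith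
      have hly : 0 < Real.log y := Real.log_pos hyp
      have hly2 : Real.log y ≤ 3 * Real.log n := (Real.log_le_log (by linarith) hyb).trans hlog
      calc c * (Hh / 2) / (3 * Real.log n) ≤ c * (Hh / 2) / Real.log y :=
            div_le_div_of_nonneg_left (by positivity) hly hly2
        _ ≤ c * y ^ θ / Real.log y := div_le_div_of_nonneg_right (mul_le_mul_of_nonneg_left hyθ2 hc.le) hly.le
        _ ≤ np y (y + y ^ θ) := hr
        _ ≤ np (a + j * Hh) (a + (j + 1) * Hh) := by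
            have h7 : a + ((j : ℝ) + 1) * Hh = y + Hh := by
              rw [hy]
              ring
            exact Nat.cast_le.2 (np_mono le_rfl (by rw [h7]; linarith))
    have h2 := np_steps hH0.le J hm
    have h3 : np a (a + J * Hh) ≤ np a b := np_mono le_rfl (by linarith)
    calc c / 12 * (b - a) / Real.log n = (b - a) / 2 * (c / 6 / Real.log n) := by
          field_simp
          ring
      _ ≤ (J * Hh) * (c / 6 / Real.log n) := mul_le_mul_of_nonneg_right hJ2 (by positivity)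
      _ = J * (c * (Hh / 2) / (3 * Real.log n)) := by
          field_simp
          ring
      _ ≤ np a (a + J * Hh) := h2
      _ ≤ np a b := by exact_mod_cast h3
  refine ⟨c / 12, η, |C| + A, by positivity, hη, hηe, fun X hX => ?_⟩
  have hX1 : (1 : ℝ) ≤ X := by exact_mod_cast hX
  have hXs : (1 : ℝ) ≤ (X : ℝ) ^ (0.612 - 2 * η) := Real.one_le_rpow hX1 (by
    norm_num at hηe ⊢
    linarith)
  have hsub : ((Icc 1 X).filter fun n => ¬ Opp (c / 12) η n) ⊆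
      ((Icc 1 X).filter fun n => ¬ Around (Strong c (1 / 2) η) (fun n => 1 * (n : ℝ) ^ (2 : ℝ)) (1 / 2) n) ∪ range A := by
    intro n hn
    rw [mem_filter] at hn
    rw [mem_union, mem_filter, mem_range]
    by_cases h : A ≤ n
    · left
      exact ⟨hn.1, fun h2 => hn.2 (key n h h2)⟩
    · right
      omega
  have h2 := (card_le_card hsub).trans (card_union_le _ _)
  rw [card_range] at h2
  have h3 := hC X hX
  calc (((Icc 1 X).filter fun n => ¬ Opp (c / 12) η n).card : ℝ) ≤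
      (((Icc 1 X).filter fun n => ¬ Around (Strong c (1 / 2) η) (fun n => 1 * (n : ℝ) ^ (2 : ℝ)) (1 / 2) n).card : ℝ) + A := by
        exact_mod_cast h2
    _ ≤ C * (X : ℝ) ^ (0.612 - 2 * η) + A * (X : ℝ) ^ (0.612 - 2 * η) :=
        add_le_add h3 (le_mul_of_one_le_right (Nat.cast_nonneg _) hXs)
    _ ≤ |C| * (X : ℝ) ^ (0.612 - 2 * η) + A * (X : ℝ) ^ (0.612 - 2 * η) :=
        add_le_add (mul_le_mul_of_nonneg_right (le_abs_self C) (by positivity)) le_rfl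
    _ = _ := by ring

end Pool.Agent.J6H45.PI
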